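import Pool.Agent.T2h81.RF.FRC_Apply

set_option autoImplicit false
set_option linter.unusedSectionVars false
set_option linter.unusedVariables false

/-! # The covering theorem with the sharp constant, primes above `(log X)^2` -/

namespace Pool.Agent.T2h81.RF

open Pool.Agent.Y831.RC

open Finset Filter Pool.Agent.H256R2.SC

open scoped Classical

theorem ev_cov2 (ε C c CM : ℝ) (hε : 0 < ε) (hc : 0 < c) (hC : 0 < C) : ∃ L₀ : ℝ, ∀ L : ℝ, L₀ ≤ L →
    10 ≤ Real.log L ∧ 20 * CM ≤ Real.log L ∧ 2 * C ≤ Real.log L ∧ 32 / (ε * c) ≤ Real.log L ∧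
    (Real.log L) ^ 2 ≤ ε ^ 2 / 100 * L ∧
    -Real.log (ε ^ 2 / 100) + 2 * Real.log (Real.log L) ≤ ε / 16 * Real.log L ∧
    2 / L ^ 2 ≤ ε / 16 ∧ 32 * (C + 1) ≤ L ∧
    4 * C * Real.log L * Real.exp (-(ε * Real.log L / 8)) ≤ ε / 64 ∧
    C * L ≤ Real.exp (ε * L / 64) ∧ 16 < Real.exp (13 * ε * L / 64) := by
  have t1 := Real.tendsto_log_atTop
  have h1 : ∀ᶠ L : ℝ in atTop, 10 ≤ Real.log L := t1.eventually_ge_atTop 10
  have h2 : ∀ᶠ L : ℝ in atTop, 20 * CM ≤ Real.log L := t1.eventually_ge_atTop _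
  have h3 : ∀ᶠ L : ℝ in atTop, 2 * C ≤ Real.log L := t1.eventually_ge_atTop _
  have h4 : ∀ᶠ L : ℝ in atTop, 32 / (ε * c) ≤ Real.log L := t1.eventually_ge_atTop _
  have h5 : ∀ᶠ L : ℝ in atTop, (Real.log L) ^ 2 ≤ ε ^ 2 / 100 * L := by
    have e1 : (fun L : ℝ => (Real.log L) ^ 2) =o[atTop] (fun L : ℝ => L) :=
      Real.isLittleO_pow_log_id_atTop
    have e2 := e1.def (show (0:ℝ) < ε ^ 2 / 100 by positivity)
    filter_upwards [e2, eventually_ge_atTop (1:ℝ)] with L hL hL2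
    rw [Real.norm_eq_abs, Real.norm_eq_abs, abs_of_nonneg (by positivity),
      abs_of_nonneg (by linarith)] at hL
    exact hL
  have h6 : ∀ᶠ L : ℝ in atTop,
      -Real.log (ε ^ 2 / 100) + 2 * Real.log (Real.log L) ≤ ε / 16 * Real.log L := by
    have e1 : (fun x : ℝ => Real.log x) =o[atTop] (fun x : ℝ => x) := Real.isLittleO_log_id_atTop
    have e2 := e1.def (show (0:ℝ) < ε / 64 by positivity)
    have e3 : ∀ᶠ x : ℝ in atTop, -Real.log (ε ^ 2 / 100) + 2 * Real.log x ≤ ε / 16 * x := by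
      filter_upwards [e2, eventually_ge_atTop (1:ℝ),
        eventually_ge_atTop (32 / ε * |Real.log (ε ^ 2 / 100)|)] with x hx hx1 hx2
      rw [Real.norm_eq_abs, Real.norm_eq_abs, abs_of_nonneg (Real.log_nonneg hx1),
        abs_of_nonneg (by linarith)] at hx
      have e4 : |Real.log (ε ^ 2 / 100)| ≤ ε / 32 * x := by
        calc |Real.log (ε ^ 2 / 100)| = ε / 32 * (32 / ε * |Real.log (ε ^ 2 / 100)|) := by
              field_simp
          _ ≤ ε / 32 * x := mul_le_mul_of_nonneg_left hx2 (by positivity)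
      have e5 := neg_abs_le (Real.log (ε ^ 2 / 100))
      linarith
    exact t1.eventually e3
  have h7 : ∀ᶠ L : ℝ in atTop, 2 / L ^ 2 ≤ ε / 16 := by
    filter_upwards [eventually_ge_atTop (1:ℝ), eventually_ge_atTop (32 / ε)] with L hL1 hL2
    rw [div_le_div_iff₀ (by positivity) (by norm_num)]
    rw [div_le_iff₀ hε] at hL2
    nlinarith
  have h8 : ∀ᶠ L : ℝ in atTop, 32 * (C + 1) ≤ L := eventually_ge_atTop _
  have h9 : ∀ᶠ L : ℝ in atTop,
      4 * C * Real.log L * Real.exp (-(ε * Real.log L / 8)) ≤ ε / 64 := by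
    have e3 : ∀ᶠ x : ℝ in atTop, 4 * C * x * Real.exp (-(ε * x / 8)) ≤ ε / 64 := by
      have e4 := Real.tendsto_pow_mul_exp_neg_atTop_nhds_zero 1
      have e5 : Tendsto (fun x : ℝ => ε / 8 * x) atTop atTop :=
        Tendsto.const_mul_atTop (by positivity) tendsto_id
      have e6 := (e4.comp e5).const_mul (4 * C * (8 / ε))
      rw [mul_zero] at e6
      have e7 := e6.eventually (gt_mem_nhds (show (0:ℝ) < ε / 64 by positivity))
      filter_upwards [e7] with x hx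
      have e8 : 4 * C * (8 / ε) * ((fun x : ℝ => x ^ 1 * Real.exp (-x)) ∘ fun x => ε / 8 * x) x =
          4 * C * x * Real.exp (-(ε * x / 8)) := by
        simp only [Function.comp, pow_one]
        have : ε / 8 * x = ε * x / 8 := by ring
        rw [this]
        field_simp
      rw [e8] at hx
      exact hx.le
    exact t1.eventually e3
  have h10 : ∀ᶠ L : ℝ in atTop, C * L ≤ Real.exp (ε * L / 64) := by
    have e4 := Real.tendsto_pow_mul_exp_neg_atTop_nhds_zero 1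
    have e5 : Tendsto (fun x : ℝ => ε / 64 * x) atTop atTop :=
      Tendsto.const_mul_atTop (by positivity) tendsto_id
    have e6 := (e4.comp e5).const_mul (C * (64 / ε))
    rw [mul_zero] at e6
    have e7 := e6.eventually (gt_mem_nhds (show (0:ℝ) < 1 by norm_num))
    filter_upwards [e7] with x hx
    have e8 : C * (64 / ε) * ((fun x : ℝ => x ^ 1 * Real.exp (-x)) ∘ fun x => ε / 64 * x) x =
        C * x * Real.exp (-(ε * x / 64)) := by
      simp only [Function.comp, pow_one]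
      have : ε / 64 * x = ε * x / 64 := by ring
      rw [this]
      field_simp
    rw [e8, Real.exp_neg] at hx
    have h0 := Real.exp_pos (ε * x / 64)
    rw [← div_eq_mul_inv, div_lt_one h0] at hx
    exact hx.le
  have h11 : ∀ᶠ L : ℝ in atTop, 16 < Real.exp (13 * ε * L / 64) := by
    have e5 : Tendsto (fun x : ℝ => 13 * ε / 64 * x) atTop atTop :=
      Tendsto.const_mul_atTop (by positivity) tendsto_id
    have e6 := Real.tendsto_exp_atTop.comp e5
    filter_upwards [e6.eventually_gt_atTop 16] with x hx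
    have : 13 * ε / 64 * x = 13 * ε * x / 64 := by ring
    simp only [Function.comp] at hx
    rwa [this] at hx
  have hall := h1.and (h2.and (h3.and (h4.and (h5.and (h6.and (h7.and (h8.and (h9.and
    (h10.and h11)))))))))
  exact Filter.eventually_atTop.1 hall

theorem exp_sq_log {L : ℝ} (hL : 0 < L) : Real.exp (-(2 * Real.log L)) = 1 / L ^ 2 := by
  rw [Real.exp_neg, ← Real.log_rpow hL, Real.exp_log (by positivity)]
  norm_num

section
variable {ε C c CM L : ℝ}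

theorem n_L (hC : 0 < C) (h : 32 * (C + 1) ≤ L) : 32 ≤ L := by nlinarith

theorem n_lz {l : ℝ} (hε : 0 < ε) (hl : 10 ≤ l) (h5 : l ^ 2 ≤ ε ^ 2 / 100 * L) :
    l ≤ ε ^ 2 / 100 * L / l := by
  rw [le_div_iff₀ (by linarith)]
  nlinarith

theorem n_z8 {l : ℝ} (hε : 0 < ε) (hε4 : ε ≤ 1 / 4) (hl : 10 ≤ l) (hL : 32 ≤ L) :
    ε ^ 2 / 100 * L / l ≤ ε / 8 * L := by
  rw [div_le_iff₀ (by linarith)]
  have h1 : ε ^ 2 / 100 ≤ ε / 8 * l := by nlinarith
  calc ε ^ 2 / 100 * L ≤ (ε / 8 * l) * L := mul_le_mul_of_nonneg_right h1 (by linarith)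
    _ = ε / 8 * L * l := by ring

theorem n_A {W : ℝ} (hε : 0 < ε) (hε4 : ε ≤ 1 / 4) (hW : 0 < W) (hL : 32 ≤ L) (hc : 0 < c)
    (f1 : 10 ≤ Real.log L) (hWc : c / 2 ≤ W * Real.log L) (f4 : 32 / (ε * c) ≤ Real.log L)
    (f6 : -Real.log (ε ^ 2 / 100) + 2 * Real.log (Real.log L) ≤ ε / 16 * Real.log L)
    (f7 : 2 / L ^ 2 ≤ ε / 16) :
    (1 - ε / 4) * (W * Real.log L) ≤ W / (1 + 2 / L ^ 2) *
      Real.log ((ε ^ 2 / 100 * L / Real.log L) / Real.log L) - 1 / Real.log L := by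
  set l := Real.log L with hl
  have hl0 : 0 < l := by linarith
  have hL0 : 0 < L := by linarith
  have hθ0 : 0 < ε ^ 2 / 100 := by positivity
  have hy2 : 0 < 1 + 2 / L ^ 2 := by positivity
  have e1 : (1 - ε / 16) * l ≤ Real.log ((ε ^ 2 / 100 * L / l) / l) := by
    rw [div_div, ← sq, Real.log_div (by positivity) (by positivity),
      Real.log_mul hθ0.ne' hL0.ne', Real.log_pow, ← hl]
    push_cast
    linarith
  have e2 : (1 - ε / 16) * W ≤ W / (1 + 2 / L ^ 2) := by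
    rw [le_div_iff₀ hy2]
    have h3 : (1 - ε / 16) * (1 + 2 / L ^ 2) ≤ 1 := by nlinarith
    calc (1 - ε / 16) * W * (1 + 2 / L ^ 2) = W * ((1 - ε / 16) * (1 + 2 / L ^ 2)) := by ring
      _ ≤ W * 1 := mul_le_mul_of_nonneg_left h3 hW.le
      _ = W := mul_one W
  have e3 : 1 / l ≤ ε / 16 * (W * l) := by
    rw [div_le_iff₀ (by positivity)] at f4
    rw [div_le_iff₀ hl0]
    have h1 : ε / 16 * (c / 2) * l ≤ ε / 16 * (W * l) * l := by gcongr
    have h2 : 1 ≤ ε / 16 * (c / 2) * l := by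
      have : ε / 16 * (c / 2) * l = l * (ε * c) / 32 := by ring
      rw [this, le_div_iff₀ (by norm_num)]
      linarith
    linarith
  have e4 : (1 - ε / 16) * W * ((1 - ε / 16) * l) ≤
      W / (1 + 2 / L ^ 2) * Real.log ((ε ^ 2 / 100 * L / l) / l) := by
    apply mul_le_mul e2 e1
    · apply mul_nonneg _ hl0.le
      linarith
    · positivity
  have e5 : 0 ≤ W * l := by positivity
  have e6 : (1 - ε / 4) * (W * l) ≤ (1 - ε / 16) * W * ((1 - ε / 16) * l) - ε / 16 * (W * l) := by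
    have : (1 - ε / 16) * W * ((1 - ε / 16) * l) - ε / 16 * (W * l) - (1 - ε / 4) * (W * l) =
        (ε / 16 + ε ^ 2 / 256) * (W * l) := by ring
    have h2 : 0 ≤ (ε / 16 + ε ^ 2 / 256) * (W * l) := by positivity
    linarith
  linarith

theorem n_yA {W : ℝ} (hε : 0 < ε) (hε4 : ε ≤ 1 / 4) (hc : 0 < c) {l : ℝ} (hl : 10 ≤ l)
    (hWc : c / 2 ≤ W * l) (f4 : 32 / (ε * c) ≤ l) :
    1 ≤ (1 - ε / 4) * (W * l) * (2 * l) := by
  have h2 : 3 / 4 * (c / 2) ≤ (1 - ε / 4) * (W * l) := by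
    have : 3 / 4 ≤ 1 - ε / 4 := by linarith
    exact mul_le_mul this hWc (by positivity) (by linarith)
  have h3 : 3 / 4 * (c / 2) * (2 * l) ≤ (1 - ε / 4) * (W * l) * (2 * l) :=
    mul_le_mul_of_nonneg_right h2 (by linarith)
  rw [div_le_iff₀ (by positivity)] at f4
  have h4 : l * (ε * c) ≤ l * (1 / 4 * c) := by
    apply mul_le_mul_of_nonneg_left _ (by linarith)
    exact mul_le_mul_of_nonneg_right hε4 hc.le
  nlinarith

theorem n_uL {W u l : ℝ} (hε : 0 < ε) (hε4 : ε ≤ 1 / 4) (hL : 32 ≤ L) (hl : 10 ≤ l) (hW : 0 < W)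
    (hWC : W * l ≤ C / 2) (hu : u ≤ (1 / 2 - ε) * (L * l * W)) : u ≤ C / 4 * L := by
  refine hu.trans ?_
  have e1 : L * l * W = L * (W * l) := by ring
  rw [e1]
  have e2 : L * (W * l) ≤ L * (C / 2) := mul_le_mul_of_nonneg_left hWC (by linarith)
  have e3 : 0 ≤ L * (W * l) := by positivity
  have e4 : (1 / 2 - ε) * (L * (W * l)) ≤ 1 / 2 * (L * (W * l)) :=
    mul_le_mul_of_nonneg_right (by linarith) e3
  linarith

theorem n_uK {W u l : ℝ} (hε : 0 < ε) (hε4 : ε ≤ 1 / 4) (hL : 32 ≤ L) (hl : 10 ≤ l) (hW : 0 < W)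
    (hu : u ≤ (1 / 2 - ε) * (L * l * W)) :
    (1 + ε / 2) * u * (1 / ((1 - ε / 4) * (W * l))) ≤ (1 / 2 - ε / 2) * L := by
  have hA : 0 < (1 - ε / 4) * (W * l) := by
    apply mul_pos (by linarith)
    positivity
  rw [mul_one_div, div_le_iff₀ hA]
  have e2 : 0 ≤ L * l * W := by positivity
  have e3 : (1 + ε / 2) * (1 / 2 - ε) ≤ (1 / 2 - ε / 2) * (1 - ε / 4) := by nlinarith
  calc (1 + ε / 2) * u ≤ (1 + ε / 2) * ((1 / 2 - ε) * (L * l * W)) :=
        mul_le_mul_of_nonneg_left hu (by linarith)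
    _ = ((1 + ε / 2) * (1 / 2 - ε)) * (L * l * W) := by ring
    _ ≤ ((1 / 2 - ε / 2) * (1 - ε / 4)) * (L * l * W) := mul_le_mul_of_nonneg_right e3 e2
    _ = _ := by ring

theorem n_δ {l : ℝ} (hε : 0 < ε) (hL : 32 ≤ L) (hl : 10 ≤ l) :
    2 * ((1 / 2 - ε / 4) * L / (2 * l)) / L ^ 2 ≤ 1 / (2 * l * L) := by
  have hL0 : 0 < L := by linarith
  have hl0 : 0 < l := by linarith
  have e : 2 * ((1 / 2 - ε / 4) * L / (2 * l)) / L ^ 2 = (1 - ε / 2) / (2 * l * L) := by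
    field_simp
    ring
  rw [e]
  apply div_le_div_of_nonneg_right _ (by positivity)
  linarith

theorem n_uy {u : ℝ} (hL : 32 * (C + 1) ≤ L) (hC : 0 < C) (hu : u ≤ C / 4 * L) : u ≤ L ^ 2 := by
  have h1 : C / 4 * L ≤ L * L := by
    apply mul_le_mul_of_nonneg_right _ (by nlinarith)
    nlinarith
  nlinarith

theorem n_uδ {u l : ℝ} (hL : 32 ≤ L) (hl : 10 ≤ l) (f3 : 2 * C ≤ l) (hC : 0 < C)
    (hu : u ≤ C / 4 * L) : u * (1 / (2 * l * L)) ≤ 1 / 4 := by
  have hL0 : 0 < L := by linarith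
  have hl0 : 0 < l := by linarith
  have h1 : u * (1 / (2 * l * L)) ≤ (C / 4 * L) * (1 / (2 * l * L)) :=
    mul_le_mul_of_nonneg_right hu (by positivity)
  have e : (C / 4 * L) * (1 / (2 * l * L)) = C / (8 * l) := by field_simp; norm_num
  have e2 : C / (8 * l) ≤ 1 / 4 := by
    rw [div_le_div_iff₀ (by positivity) (by norm_num)]
    linarith
  linarith

theorem n_CB {u l : ℝ} (hε : 0 < ε) (hε4 : ε ≤ 1 / 4) (hL : 32 ≤ L) (hl : l = Real.log L)
    (hl1 : 10 ≤ l) (hC : 0 < C) (hu0 : 0 ≤ u) (hu : u ≤ C / 4 * L)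
    (f9 : 4 * C * l * Real.exp (-(ε * l / 8)) ≤ ε / 64) :
    Real.exp ((1 / 2 - ε / 4) * L) ^ (1 + ε / 16) *
      Real.exp (2 * u * ((L ^ 2) ^ (1 - (1 + ε / 16)) * (21 / 20 * l))) ≤
      Real.exp ((1 / 2 - 13 * ε / 64) * L) := by
  have hL0 : 0 < L := by linarith
  have h0 : (L ^ 2) ^ (1 - (1 + ε / 16)) = Real.exp (-(ε * l / 8)) := by
    rw [Real.rpow_def_of_pos (by positivity), Real.log_pow, ← hl]
    congr 1
    push_cast
    ring
  have h2 : 2 * u * ((L ^ 2) ^ (1 - (1 + ε / 16)) * (21 / 20 * l)) ≤ ε * L / 64 := by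
    rw [h0]
    have e0 := Real.exp_pos (-(ε * l / 8))
    calc 2 * u * (Real.exp (-(ε * l / 8)) * (21 / 20 * l)) ≤ 2 * (C / 4 * L) *
          (Real.exp (-(ε * l / 8)) * (2 * l)) := by
          apply mul_le_mul
          · linarith
          · apply mul_le_mul_of_nonneg_left _ e0.le
            linarith
          · apply mul_nonneg e0.le
            linarith
          · positivity
      _ = (4 * C * l * Real.exp (-(ε * l / 8))) * L / 4 := by ring
      _ ≤ (ε / 64) * L / 4 := by gcongr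
      _ ≤ ε * L / 64 := by
          have : 0 < ε * L := by positivity
          linarith
  rw [← Real.exp_mul, ← Real.exp_add]
  apply Real.exp_le_exp.2
  have h4 : (1 / 2 - ε / 4) * L * (1 + ε / 16) ≤ (1 / 2 - 7 * ε / 32) * L := by
    have e1 : (1 / 2 - ε / 4) * (1 + ε / 16) ≤ 1 / 2 - 7 * ε / 32 := by nlinarith
    calc (1 / 2 - ε / 4) * L * (1 + ε / 16) = ((1 / 2 - ε / 4) * (1 + ε / 16)) * L := by ring
      _ ≤ _ := mul_le_mul_of_nonneg_right e1 hL0.le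
  have h5 : (1 / 2 - 13 * ε / 64) * L = (1 / 2 - 7 * ε / 32) * L + ε * L / 64 := by ring
  linarith

theorem n_tail {u l K : ℝ} (hε : 0 < ε) (hε4 : ε ≤ 1 / 4) (hL : 32 * (C + 1) ≤ L)
    (hl : l = Real.log L) (hl1 : 10 ≤ l) (hC : 0 < C) (hu0 : 0 ≤ u) (hu : u ≤ C / 4 * L)
    (huK : (1 + ε / 2) * u * K ≤ (1 / 2 - ε / 2) * L) :
    (u + 1) * ((1 / (2 * l * L)) ^ 2 + Real.exp (ε / 2 * ((1 + ε / 2) * u * K /
      Real.log (Real.exp (ε ^ 2 / 100 * L / l)) -
      Real.log (Real.exp ((1 / 2 - ε / 4) * L) / Real.exp (ε ^ 2 / 100 * L / l)) /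
      Real.log (Real.exp (ε ^ 2 / 100 * L / l))))) ≤ 1 / 8 := by
  have hL0 : 0 < L := by linarith
  have hl0 : 0 < l := by linarith
  rw [← Real.exp_sub, Real.log_exp, Real.log_exp]
  set v := ε ^ 2 / 100 * L / l with hv
  have hv0 : 0 < v := by positivity
  have h3 : Real.exp (ε / 2 * ((1 + ε / 2) * u * K / v - ((1 / 2 - ε / 4) * L - v) / v)) ≤
      1 / L ^ 2 := by
    rw [← exp_sq_log hL0, ← hl]
    apply Real.exp_le_exp.mpr
    rw [← sub_div]
    have e1 : ((1 + ε / 2) * u * K - ((1 / 2 - ε / 4) * L - v)) / v ≤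
        (-(ε / 4) * L + v) / v := by
      apply div_le_div_of_nonneg_right _ hv0.le
      linarith
    have e2 : (-(ε / 4) * L + v) / v = 1 - 25 * l / ε := by
      rw [hv]
      field_simp
      ring
    have e3 : ε / 2 * (1 - 25 * l / ε) ≤ -(2 * l) := by
      have : ε / 2 * (1 - 25 * l / ε) = ε / 2 - 25 / 2 * l := by field_simp
      rw [this]
      linarith
    have e4 := mul_le_mul_of_nonneg_left (e1.trans e2.le) (show 0 ≤ ε / 2 by positivity)
    linarith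
  have h4 : (1 / (2 * l * L)) ^ 2 ≤ 1 / L ^ 2 := by
    have hδ1 : 1 / (2 * l * L) ≤ 1 / L := by
      apply one_div_le_one_div_of_le hL0
      nlinarith
    calc (1 / (2 * l * L)) ^ 2 ≤ (1 / L) ^ 2 := pow_le_pow_left₀ (by positivity) hδ1 2
      _ = 1 / L ^ 2 := by rw [one_div_pow]
  have h5 : (u + 1) * ((1 / (2 * l * L)) ^ 2 + Real.exp (ε / 2 * ((1 + ε / 2) * u * K / v -
      ((1 / 2 - ε / 4) * L - v) / v))) ≤ ((C + 1) * L) * (2 / L ^ 2) := by
    apply mul_le_mul _ _ (by positivity) (by positivity)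
    · nlinarith
    · have e : (2:ℝ) / L ^ 2 = 1 / L ^ 2 + 1 / L ^ 2 := by ring
      rw [e]
      linarith
  have h6 : ((C + 1) * L) * (2 / L ^ 2) = 2 * (C + 1) / L := by field_simp
  have h7 : 2 * (C + 1) / L ≤ 1 / 8 := by
    rw [div_le_div_iff₀ hL0 (by norm_num)]
    linarith
  linarith

theorem n_mom {u l : ℝ} {J : ℕ} (hL : 32 * (C + 1) ≤ L) (hl : l = Real.log L) (hl1 : 10 ≤ l)
    (hC : 0 < C) (hu0 : 0 ≤ u) (hu : u ≤ C / 4 * L) (hJ : 24 * l ≤ J) :
    u * (1 / 3) ^ J * Real.exp (20 * (21 / 20 * l)) ≤ 1 / 8 := by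
  have hL0 : 0 < L := by linarith
  have h1 : (1 / (3:ℝ)) ^ J ≤ Real.exp (-(24 * l)) := by
    have e1 : (1 / (3:ℝ)) = Real.exp (-(Real.log 3)) := by
      rw [Real.exp_neg, Real.exp_log (by norm_num)]; norm_num
    rw [e1, ← Real.exp_nat_mul]
    apply Real.exp_le_exp.mpr
    have e2 : (1:ℝ) ≤ Real.log 3 := by
      rw [Real.le_log_iff_exp_le (by norm_num)]
      have := Real.exp_one_lt_d9
      linarith
    have e3 : 24 * l ≤ J * Real.log 3 := by nlinarith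
    linarith
  have h3 : (1 / (3:ℝ)) ^ J * Real.exp (20 * (21 / 20 * l)) ≤ 1 / L ^ 2 := by
    calc (1 / (3:ℝ)) ^ J * Real.exp (20 * (21 / 20 * l))
        ≤ Real.exp (-(24 * l)) * Real.exp (20 * (21 / 20 * l)) :=
          mul_le_mul_of_nonneg_right h1 (Real.exp_pos _).le
      _ = Real.exp (-(3 * l)) := by rw [← Real.exp_add]; congr 1; ring
      _ ≤ Real.exp (-(2 * l)) := Real.exp_le_exp.2 (by linarith)
      _ = 1 / L ^ 2 := by rw [hl]; exact exp_sq_log hL0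
  calc u * (1 / (3:ℝ)) ^ J * Real.exp (20 * (21 / 20 * l))
      = u * ((1 / (3:ℝ)) ^ J * Real.exp (20 * (21 / 20 * l))) := by ring
    _ ≤ (C / 4 * L) * (1 / L ^ 2) := mul_le_mul hu h3 (by positivity) (by positivity)
    _ = C / (4 * L) := by field_simp
    _ ≤ 1 / 8 := by
        rw [div_le_div_iff₀ (by positivity) (by norm_num)]
        linarith

theorem n_fin {u l z N : ℝ} {J : ℕ} (hε : 0 < ε) (hL : 32 ≤ L) (hC : 0 < C) (hu0 : 0 ≤ u)
    (hu : u ≤ C / 4 * L) (hzJ0 : 0 ≤ z ^ J) (hzJ : z ^ J ≤ Real.exp (ε * L / 16))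
    (f10 : C * L ≤ Real.exp (ε * L / 64)) (f11 : 16 < Real.exp (13 * ε * L / 64))
    (hN : Real.exp ((1 - ε / 8) * L) ≤ N) :
    (Real.exp ((1 / 2 - 13 * ε / 64) * L)) ^ 2 * (1 + u * z ^ J) < N / 8 := by
  have hL0 : 0 < L := by linarith
  have hu64 : u ≤ Real.exp (ε * L / 64) := by
    have : C / 4 * L ≤ C * L := by nlinarith
    linarith
  have h2 : u * z ^ J ≤ Real.exp (ε * L / 64) * Real.exp (ε * L / 16) :=
    mul_le_mul hu64 hzJ hzJ0 (Real.exp_pos _).le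
  have h3 : (1:ℝ) ≤ Real.exp (5 * ε * L / 64) := Real.one_le_exp (by positivity)
  have h4 : 1 + u * z ^ J ≤ 2 * Real.exp (5 * ε * L / 64) := by
    have : Real.exp (ε * L / 64) * Real.exp (ε * L / 16) = Real.exp (5 * ε * L / 64) := by
      rw [← Real.exp_add]; congr 1; ring
    linarith
  have h5 : (Real.exp ((1 / 2 - 13 * ε / 64) * L)) ^ 2 = Real.exp ((1 - 26 * ε / 64) * L) := by
    rw [← Real.exp_nat_mul]; congr 1; push_cast; ring
  have h6 : (Real.exp ((1 / 2 - 13 * ε / 64) * L)) ^ 2 * (1 + u * z ^ J) ≤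
      Real.exp ((1 - 26 * ε / 64) * L) * (2 * Real.exp (5 * ε * L / 64)) := by
    rw [h5]
    exact mul_le_mul_of_nonneg_left h4 (Real.exp_pos _).le
  have h7 : Real.exp ((1 - 26 * ε / 64) * L) * (2 * Real.exp (5 * ε * L / 64)) =
      2 * Real.exp ((1 - 21 * ε / 64) * L) := by
    have : Real.exp ((1 - 26 * ε / 64) * L) * Real.exp (5 * ε * L / 64) =
        Real.exp ((1 - 21 * ε / 64) * L) := by
      rw [← Real.exp_add]; congr 1; ring
    calc _ = 2 * (Real.exp ((1 - 26 * ε / 64) * L) * Real.exp (5 * ε * L / 64)) := by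
          ring
      _ = _ := by rw [this]
  have h8 : 2 * Real.exp ((1 - 21 * ε / 64) * L) < Real.exp ((1 - ε / 8) * L) / 8 := by
    have e1 : Real.exp ((1 - ε / 8) * L) = Real.exp ((1 - 21 * ε / 64) * L) *
        Real.exp (13 * ε * L / 64) := by
      rw [← Real.exp_add]; congr 1; ring
    rw [e1]
    have := Real.exp_pos ((1 - 21 * ε / 64) * L)
    nlinarith
  linarith

end

theorem cov2 (ε : ℝ) (hε : 0 < ε) (hε4 : ε ≤ 1 / 4) : ∃ X₀ : ℝ, ∀ X : ℝ, X₀ ≤ X →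
    CovAt ((Real.log X) ^ 2) X (ε / 8) ε := by
  obtain ⟨CM, hCM0, hSP⟩ := sum_PS
  obtain ⟨c, C, hc, hcC, hWb⟩ := WW_bounds
  have hC : 0 < C := hc.trans_le hcC
  obtain ⟨L₀, hL₀⟩ := ev_cov2 ε C c CM hε hc hC
  refine ⟨Real.exp L₀, ?_⟩
  intro X hX κ _ _ hκ res hres A B hAB
  have hX0 : 0 < X := lt_of_lt_of_le (Real.exp_pos _) hX
  have hXL : X = Real.exp (Real.log X) := (Real.exp_log hX0).symm
  have hLL : L₀ ≤ Real.log X := by
    rw [← Real.log_exp L₀]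
    exact Real.log_le_log (Real.exp_pos _) hX
  have hXr : ∀ s : ℝ, X ^ s = Real.exp (s * Real.log X) := by
    intro s
    rw [Real.rpow_def_of_pos hX0, mul_comm]
  obtain ⟨f1, f2, f3, f4, f5, f6, f7, f8, f9, f10, f11⟩ := hL₀ (Real.log X) hLL
  rw [hXr] at hAB
  simp only [hXr] at hres ⊢
  clear hX hLL hXL hL₀ hX0 hXr
  generalize Real.log X = L at *
  have hL32 : 32 ≤ L := n_L hC f8
  have hL0 : 0 < L := by linarith
  obtain ⟨l, hl⟩ : ∃ l, l = Real.log L := ⟨_, rfl⟩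
  rw [← hl] at f1 f2 f3 f4 f5 f9 hκ
  have hl0 : 0 < l := by linarith
  have hlz : l ≤ ε ^ 2 / 100 * L / l := n_lz hε f1 f5
  have hz8 : ε ^ 2 / 100 * L / l ≤ ε / 8 * L := n_z8 hε hε4 f1 hL32
  have hlogy : Real.log (L ^ 2) = 2 * l := by rw [Real.log_pow, ← hl]; push_cast; ring
  have hL2 : (9:ℝ) ≤ L ^ 2 := by nlinarith only [hL32]
  obtain ⟨hWl, hWu⟩ := hWb (L ^ 2) (by linarith)
  rw [hlogy] at hWl hWu
  have hW0 : 0 < WW (L ^ 2) := WW_pos _
  generalize hWdef : WW (L ^ 2) = W at *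
  have hWc : c / 2 ≤ W * l := by linarith
  have hWC : W * l ≤ C / 2 := by linarith
  have hA₀pos : 0 < (1 - ε / 4) * (W * l) := by
    apply mul_pos (by linarith)
    positivity
  have hlogz : Real.log (Real.exp (ε ^ 2 / 100 * L / l)) = ε ^ 2 / 100 * L / l := Real.log_exp _
  have hz1 : 1 < Real.exp (ε ^ 2 / 100 * L / l) := Real.one_lt_exp_iff.mpr (by positivity)
  have hnA := n_A (L := L) hε hε4 hW0 hL32 hc (by rw [← hl]; exact f1) (by rw [← hl]; exact hWc)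
    (by rw [← hl]; exact f4) f6 f7
  rw [← hl] at hnA
  have hH := profile_PS (L ^ 2) (Real.exp (ε ^ 2 / 100 * L / l)) l ((1 - ε / 4) * (W * l))
    (by linarith) hz1 hl0 (by rw [hlogz]; exact hlz) hA₀pos
    (by rw [hlogz, hWdef]; exact hnA)
    (by rw [hlogy]; exact n_yA hε hε4 hc f1 hWc f4)
  have hG := hSP (L ^ 2) (Real.exp (ε ^ 2 / 100 * L / l)) (Real.exp_le_exp.2 (by linarith))
  rw [hlogz] at hG
  have hG' : ∑ i, 1 / ((emb (PS (L ^ 2) (Real.exp (ε ^ 2 / 100 * L / l)) ∅) i : ℕ) : ℝ) ≤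
      21 / 20 * l := by
    have h1 : Real.log (ε ^ 2 / 100 * L / l) ≤ l := by
      rw [hl]
      apply Real.log_le_log (by rw [← hl]; positivity)
      rw [← hl]
      refine hz8.trans ?_
      have : ε / 8 * L ≤ 1 * L := mul_le_mul_of_nonneg_right (by linarith) hL0.le
      linarith
    linarith
  obtain ⟨u, hu⟩ : ∃ u, (Fintype.card κ : ℝ) = u := ⟨_, rfl⟩
  have hu0 : 0 ≤ u := by rw [← hu]; positivity
  rw [hu] at hκ
  have huL : u ≤ C / 4 * L := n_uL hε hε4 hL32 f1 hW0 hWC hκ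
  have huK := n_uK hε hε4 hL32 f1 hW0 hκ
  obtain ⟨J, hJ⟩ : ∃ J : ℕ, J = 2 * ⌈12 * l⌉₊ := ⟨_, rfl⟩
  have hJ1 : 24 * l ≤ (J:ℝ) := by
    have := Nat.le_ceil (12 * l)
    rw [hJ]; push_cast; linarith
  have hJ2 : (J:ℝ) ≤ 25 * l := by
    have := Nat.ceil_lt_add_one (show 0 ≤ 12 * l by positivity)
    rw [hJ]; push_cast; linarith
  have hJe : Even J := ⟨⌈12 * l⌉₊, by rw [hJ]; ring⟩
  have hzJ : (Real.exp (ε ^ 2 / 100 * L / l)) ^ J ≤ Real.exp (ε * L / 16) := by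
    rw [← Real.exp_nat_mul]
    apply Real.exp_le_exp.mpr
    calc (J:ℝ) * (ε ^ 2 / 100 * L / l) ≤ (25 * l) * (ε ^ 2 / 100 * L / l) :=
          mul_le_mul_of_nonneg_right hJ2 (by positivity)
      _ = ε / 4 * (ε * L) := by field_simp; norm_num
      _ ≤ 1 / 16 * (ε * L) := by
          apply mul_le_mul_of_nonneg_right _ (by positivity)
          linarith
      _ = ε * L / 16 := by ring
  have hz8' : Real.exp (ε ^ 2 / 100 * L / l) ≤ Real.exp (ε / 8 * L) := Real.exp_le_exp.2 hz8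
  have hQ1 : 1 ≤ Real.exp ((1 / 2 - ε / 4) * L) :=
    Real.one_le_exp (by apply mul_nonneg _ hL0.le; linarith)
  have hδ := n_δ (ε := ε) hε hL32 f1
  have hfin := n_fin (l := l) (z := Real.exp (ε ^ 2 / 100 * L / l)) (J := J) hε hL32 hC hu0 huL
    (by positivity) hzJ f10 f11 hAB
  obtain ⟨x, hx1, hx2, hx3⟩ := cover_of (L ^ 2) (Real.exp (ε ^ 2 / 100 * L / l))
    (1 / ((1 - ε / 4) * (W * l))) (Real.exp ((1 / 2 - ε / 4) * L)) (1 / (2 * l * L)) (ε / 2)
    (1 + ε / 16) (Real.exp ((1 / 2 - 13 * ε / 64) * L)) (21 / 20 * l) J hJe hL2 hz1 hQ1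
    (by positivity) (by linarith) (by linarith) hG' hH (by rw [hlogy, Real.log_exp]; exact hδ)
    κ u hu (n_uy f8 hC huL) (n_uδ hL32 f1 f3 hC huL)
    (n_CB hε hε4 hL32 hl f1 hC hu0 huL f9)
    (n_tail hε hε4 f8 hl f1 hC hu0 huL huK)
    (n_mom f8 hl f1 hC hu0 huL hJ1)
    res (fun p hp hp1 hp2 => hres p hp hp1 (hp2.trans hz8')) A B hfin
  refine ⟨x, hx1, hx2, fun k => ?_⟩
  obtain ⟨p, hp, hp1, hp2, hp3⟩ := hx3 k
  exact ⟨p, hp, hp1, hp2.trans hz8', hp3⟩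

end Pool.Agent.T2h81.RF
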