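import Pool.Agent.T2h81.RF.FRC2_CovTwo
import Pool.Agent.T2h81.RF.FRC_Cov2

set_option autoImplicit false
set_option linter.unusedSectionVars false
set_option linter.unusedVariables false

/-! # The covering theorem with the sharp constant, primes above `(log X)^b`, `1 < b` -/

namespace Pool.Agent.T2h81.RF

open Pool.Agent.Y831.RC

open Finset Filter Pool.Agent.H256R2.SC

open scoped Classical

theorem ev_covb (b ε C CR : ℝ) (hb : 1 < b) (hε : 0 < ε) (hC : 0 < C) : ∃ L₀ : ℝ, ∀ L : ℝ,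
    L₀ ≤ L →
    500 / ε * (Real.log L) ^ 2 ≤ ε ^ 2 / 100 * L ∧
    -Real.log (ε ^ 2 / 100) + Real.log (500 / ε) + 2 * Real.log (Real.log L) ≤
      ε / 16 * Real.log L ∧
    C / 2 ≤ L ^ (b - 1) ∧ 4 * CR ≤ Real.log L ∧ 16000 * Real.log L ≤ ε * L ∧
    16 < Real.exp (7 * ε * L / 64) ∧ 1616 * C ≤ L := by
  have t1 := Real.tendsto_log_atTop
  have h5 : ∀ᶠ L : ℝ in atTop, 500 / ε * (Real.log L) ^ 2 ≤ ε ^ 2 / 100 * L := by
    have e1 : (fun L : ℝ => (Real.log L) ^ 2) =o[atTop] (fun L : ℝ => L) :=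
      Real.isLittleO_pow_log_id_atTop
    have e2 := e1.def (show (0:ℝ) < ε ^ 3 / 50000 by positivity)
    filter_upwards [e2, eventually_ge_atTop (1:ℝ)] with L hL hL2
    rw [Real.norm_eq_abs, Real.norm_eq_abs, abs_of_nonneg (by positivity),
      abs_of_nonneg (by linarith)] at hL
    calc 500 / ε * (Real.log L) ^ 2 ≤ 500 / ε * (ε ^ 3 / 50000 * L) :=
          mul_le_mul_of_nonneg_left hL (by positivity)
      _ = ε ^ 2 / 100 * L := by field_simp; ring
  have h6 : ∀ᶠ L : ℝ in atTop,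
      -Real.log (ε ^ 2 / 100) + Real.log (500 / ε) + 2 * Real.log (Real.log L) ≤
        ε / 16 * Real.log L := by
    have e1 : (fun x : ℝ => Real.log x) =o[atTop] (fun x : ℝ => x) := Real.isLittleO_log_id_atTop
    have e2 := e1.def (show (0:ℝ) < ε / 64 by positivity)
    have e3 : ∀ᶠ x : ℝ in atTop, -Real.log (ε ^ 2 / 100) + Real.log (500 / ε) + 2 * Real.log x ≤
        ε / 16 * x := by
      filter_upwards [e2, eventually_ge_atTop (1:ℝ),
        eventually_ge_atTop (32 / ε * |-Real.log (ε ^ 2 / 100) + Real.log (500 / ε)|)]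
        with x hx hx1 hx2
      rw [Real.norm_eq_abs, Real.norm_eq_abs, abs_of_nonneg (Real.log_nonneg hx1),
        abs_of_nonneg (by linarith)] at hx
      have e4 : |-Real.log (ε ^ 2 / 100) + Real.log (500 / ε)| ≤ ε / 32 * x := by
        calc |-Real.log (ε ^ 2 / 100) + Real.log (500 / ε)| =
              ε / 32 * (32 / ε * |-Real.log (ε ^ 2 / 100) + Real.log (500 / ε)|) := by
              field_simp
          _ ≤ ε / 32 * x := mul_le_mul_of_nonneg_left hx2 (by positivity)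
      have e5 := le_abs_self (-Real.log (ε ^ 2 / 100) + Real.log (500 / ε))
      linarith
    exact t1.eventually e3
  have h7 : ∀ᶠ L : ℝ in atTop, C / 2 ≤ L ^ (b - 1) :=
    (tendsto_rpow_atTop (show 0 < b - 1 by linarith)).eventually_ge_atTop _
  have h8 : ∀ᶠ L : ℝ in atTop, 4 * CR ≤ Real.log L := t1.eventually_ge_atTop _
  have h9 : ∀ᶠ L : ℝ in atTop, 16000 * Real.log L ≤ ε * L := by
    have e1 : (fun x : ℝ => Real.log x) =o[atTop] (fun x : ℝ => x) := Real.isLittleO_log_id_atTop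
    have e2 := e1.def (show (0:ℝ) < ε / 16000 by positivity)
    filter_upwards [e2, eventually_ge_atTop (1:ℝ)] with x hx hx1
    rw [Real.norm_eq_abs, Real.norm_eq_abs, abs_of_nonneg (Real.log_nonneg hx1),
      abs_of_nonneg (by linarith)] at hx
    linarith
  have h10 : ∀ᶠ L : ℝ in atTop, 16 < Real.exp (7 * ε * L / 64) := by
    have e5 : Tendsto (fun x : ℝ => 7 * ε / 64 * x) atTop atTop :=
      Tendsto.const_mul_atTop (by positivity) tendsto_id
    have e6 := Real.tendsto_exp_atTop.comp e5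
    filter_upwards [e6.eventually_gt_atTop 16] with x hx
    have : 7 * ε / 64 * x = 7 * ε * x / 64 := by ring
    simp only [Function.comp] at hx
    rwa [this] at hx
  have h11 : ∀ᶠ L : ℝ in atTop, 1616 * C ≤ L := eventually_ge_atTop _
  exact Filter.eventually_atTop.1
    (h5.and (h6.and (h7.and (h8.and (h9.and (h10.and h11))))))

section
variable {ε C c L : ℝ}

theorem b_A {W V : ℝ} (hε : 0 < ε) (hε4 : ε ≤ 1 / 4) (hW : 0 < W) (hL : 32 ≤ L) (hc : 0 < c)
    (hV : 0 < V)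
    (f1 : 10 ≤ Real.log L) (hWc : c / 2 ≤ W * Real.log L) (f4 : 32 / (ε * c) ≤ Real.log L)
    (f6 : -Real.log (ε ^ 2 / 100) + Real.log V + 2 * Real.log (Real.log L) ≤ ε / 16 * Real.log L)
    (f7 : 2 / L ^ 2 ≤ ε / 16) :
    (1 - ε / 4) * (W * Real.log L) ≤ W / (1 + 2 / L ^ 2) *
      Real.log ((ε ^ 2 / 100 * L / Real.log L) / (V * Real.log L)) - V / (V * Real.log L) := by
  set l := Real.log L with hl
  have hl0 : 0 < l := by linarith
  have hL0 : 0 < L := by linarith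
  have hθ0 : 0 < ε ^ 2 / 100 := by positivity
  have hy2 : 0 < 1 + 2 / L ^ 2 := by positivity
  have e1 : (1 - ε / 16) * l ≤ Real.log ((ε ^ 2 / 100 * L / l) / (V * l)) := by
    have e0 : (ε ^ 2 / 100 * L / l) / (V * l) = (ε ^ 2 / 100 * L) / (V * l ^ 2) := by
      field_simp
    rw [e0, Real.log_div (by positivity) (by positivity),
      Real.log_mul hθ0.ne' hL0.ne', Real.log_mul hV.ne' (by positivity), Real.log_pow, ← hl]
    push_cast
    linarith
  have e2 : (1 - ε / 16) * W ≤ W / (1 + 2 / L ^ 2) := by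
    rw [le_div_iff₀ hy2]
    have h3 : (1 - ε / 16) * (1 + 2 / L ^ 2) ≤ 1 := by nlinarith
    calc (1 - ε / 16) * W * (1 + 2 / L ^ 2) = W * ((1 - ε / 16) * (1 + 2 / L ^ 2)) := by ring
      _ ≤ W * 1 := mul_le_mul_of_nonneg_left h3 hW.le
      _ = W := mul_one W
  have e3 : V / (V * l) ≤ ε / 16 * (W * l) := by
    rw [div_le_iff₀ (by positivity)] at f4
    have e0 : V / (V * l) = 1 / l := by field_simp
    rw [e0, div_le_iff₀ hl0]
    have h1 : ε / 16 * (c / 2) * l ≤ ε / 16 * (W * l) * l := by gcongr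
    have h2 : 1 ≤ ε / 16 * (c / 2) * l := by
      have : ε / 16 * (c / 2) * l = l * (ε * c) / 32 := by ring
      rw [this, le_div_iff₀ (by norm_num)]
      linarith
    linarith
  have e4 : (1 - ε / 16) * W * ((1 - ε / 16) * l) ≤
      W / (1 + 2 / L ^ 2) * Real.log ((ε ^ 2 / 100 * L / l) / (V * l)) := by
    apply mul_le_mul e2 e1
    · apply mul_nonneg _ hl0.le
      linarith
    · positivity
  have e5 : 0 ≤ W * l := by positivity
  have e6 : (1 - ε / 4) * (W * l) ≤ (1 - ε / 16) * W * ((1 - ε / 16) * l) - ε / 16 * (W * l) := by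
    have : (1 - ε / 16) * W * ((1 - ε / 16) * l) - ε / 16 * (W * l) - (1 - ε / 4) * (W * l) =
        (ε / 16 + ε ^ 2 / 256) * (W * l) := by ring
    have h2 : 0 ≤ (ε / 16 + ε ^ 2 / 256) * (W * l) := by positivity
    linarith
  linarith

theorem b_yA {W V : ℝ} (hε : 0 < ε) (hε4 : ε ≤ 1 / 4) (hc : 0 < c) {l : ℝ} (hl : 10 ≤ l)
    (hV : 0 < V) (hWc : c / 2 ≤ W * l) (f4 : 32 / (ε * c) ≤ l) :
    V ≤ (1 - ε / 4) * (W * l) * (V * l) := by
  have h2 : 3 / 4 * (c / 2) ≤ (1 - ε / 4) * (W * l) := by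
    have : 3 / 4 ≤ 1 - ε / 4 := by linarith
    exact mul_le_mul this hWc (by positivity) (by linarith)
  have h3 : 3 / 4 * (c / 2) * l ≤ (1 - ε / 4) * (W * l) * l :=
    mul_le_mul_of_nonneg_right h2 (by linarith)
  rw [div_le_iff₀ (by positivity)] at f4
  have h4 : l * (ε * c) ≤ l * (1 / 4 * c) := by
    apply mul_le_mul_of_nonneg_left _ (by linarith)
    exact mul_le_mul_of_nonneg_right hε4 hc.le
  have h5 : 1 ≤ (1 - ε / 4) * (W * l) * l := by nlinarith
  calc V = V * 1 := (mul_one V).symm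
    _ ≤ V * ((1 - ε / 4) * (W * l) * l) := mul_le_mul_of_nonneg_left h5 hV.le
    _ = _ := by ring

theorem b_uL {W u l b : ℝ} (hε : 0 < ε) (hε4 : ε ≤ 1 / 4) (hL : 32 ≤ L) (hl : 10 ≤ l)
    (hb : 1 ≤ b) (hW : 0 < W)
    (hWC : W * (b * l) ≤ C) (hu : u ≤ (1 / 2 - ε) * (L * l * W)) : u ≤ 2 * C / 4 * L := by
  refine hu.trans ?_
  have e0 : W * l ≤ W * (b * l) := by
    apply mul_le_mul_of_nonneg_left _ hW.le
    nlinarith
  have e1 : L * l * W = L * (W * l) := by ring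
  rw [e1]
  have e2 : L * (W * l) ≤ L * C := mul_le_mul_of_nonneg_left (e0.trans hWC) (by linarith)
  have e3 : 0 ≤ L * (W * l) := by positivity
  have e4 : (1 / 2 - ε) * (L * (W * l)) ≤ 1 / 2 * (L * (W * l)) :=
    mul_le_mul_of_nonneg_right (by linarith) e3
  linarith

theorem b_uw {u b : ℝ} (hL : 32 ≤ L) (hu : u ≤ C / 4 * L) (h7 : C / 2 ≤ L ^ (b - 1)) :
    2 * u ≤ L ^ b := by
  have hL0 : 0 < L := by linarith
  have e : L ^ b = L ^ (b - 1) * L := by
    rw [← Real.rpow_add_one hL0.ne']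
    congr 1
    ring
  rw [e]
  have := mul_le_mul_of_nonneg_right h7 hL0.le
  linarith

theorem b_tail {u l K : ℝ} (hε : 0 < ε) (hε4 : ε ≤ 1 / 4) (hL : 32 * (C + 1) ≤ L)
    (hl : l = Real.log L) (hl1 : 10 ≤ l) (hC : 0 < C) (hu0 : 0 ≤ u) (hu : u ≤ C / 4 * L)
    (huK : (1 + ε / 2) * u * K ≤ (1 / 2 - ε / 2) * L) :
    (u + 1) * ((1 / (2 * l * L)) ^ 2 + Real.exp (ε / 2 * ((1 + ε / 2) * u * K /
      Real.log (Real.exp (ε ^ 2 / 100 * L / l)) -
      Real.log (Real.exp ((1 / 2 - ε / 4) * L) / Real.exp (ε ^ 2 / 100 * L / l)) /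
      Real.log (Real.exp (ε ^ 2 / 100 * L / l))))) ≤ 1 / 16 := by
  have hL0 : 0 < L := by linarith
  have hl0 : 0 < l := by linarith
  rw [← Real.exp_sub, Real.log_exp, Real.log_exp]
  set v := ε ^ 2 / 100 * L / l with hv
  have hv0 : 0 < v := by positivity
  have h3 : Real.exp (ε / 2 * ((1 + ε / 2) * u * K / v - ((1 / 2 - ε / 4) * L - v) / v)) ≤
      1 / L ^ 2 := by
    rw [← exp_sq_log hL0, ← hl]
    apply Real.exp_le_exp.mpr
    rw [← sub_div]
    have e1 : ((1 + ε / 2) * u * K - ((1 / 2 - ε / 4) * L - v)) / v ≤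
        (-(ε / 4) * L + v) / v := by
      apply div_le_div_of_nonneg_right _ hv0.le
      linarith
    have e2 : (-(ε / 4) * L + v) / v = 1 - 25 * l / ε := by
      rw [hv]
      field_simp
      ring
    have e3 : ε / 2 * (1 - 25 * l / ε) ≤ -(2 * l) := by
      have : ε / 2 * (1 - 25 * l / ε) = ε / 2 - 25 / 2 * l := by field_simp
      rw [this]
      linarith
    have e4 := mul_le_mul_of_nonneg_left (e1.trans e2.le) (show 0 ≤ ε / 2 by positivity)
    linarith
  have h4 : (1 / (2 * l * L)) ^ 2 ≤ 1 / L ^ 2 := by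
    have hδ1 : 1 / (2 * l * L) ≤ 1 / L := by
      apply one_div_le_one_div_of_le hL0
      nlinarith
    calc (1 / (2 * l * L)) ^ 2 ≤ (1 / L) ^ 2 := pow_le_pow_left₀ (by positivity) hδ1 2
      _ = 1 / L ^ 2 := by rw [one_div_pow]
  have h5 : (u + 1) * ((1 / (2 * l * L)) ^ 2 + Real.exp (ε / 2 * ((1 + ε / 2) * u * K / v -
      ((1 / 2 - ε / 4) * L - v) / v))) ≤ ((C + 1) * L) * (2 / L ^ 2) := by
    apply mul_le_mul _ _ (by positivity) (by positivity)
    · nlinarith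
    · have e : (2:ℝ) / L ^ 2 = 1 / L ^ 2 + 1 / L ^ 2 := by ring
      rw [e]
      linarith
  have h6 : ((C + 1) * L) * (2 / L ^ 2) = 2 * (C + 1) / L := by field_simp
  have h7 : 2 * (C + 1) / L ≤ 1 / 16 := by
    rw [div_le_div_iff₀ hL0 (by norm_num)]
    linarith
  linarith

theorem b_mom {u l : ℝ} {J : ℕ} (hL : 1616 * C ≤ L) (hL32 : 32 ≤ L) (hl : l = Real.log L)
    (hl1 : 10 ≤ l)
    (hC : 0 < C) (hu0 : 0 ≤ u) (hu : u ≤ C / 4 * L) (hJ : 24 * l ≤ J) :
    u * (1 / 3) ^ J * Real.exp (6 * 1 + 20 * (21 / 20 * l)) ≤ 1 / 16 := by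
  have hL0 : 0 < L := by linarith
  have h1 : (1 / (3:ℝ)) ^ J ≤ Real.exp (-(24 * l)) := by
    have e1 : (1 / (3:ℝ)) = Real.exp (-(Real.log 3)) := by
      rw [Real.exp_neg, Real.exp_log (by norm_num)]; norm_num
    rw [e1, ← Real.exp_nat_mul]
    apply Real.exp_le_exp.mpr
    have e2 : (1:ℝ) ≤ Real.log 3 := by
      rw [Real.le_log_iff_exp_le (by norm_num)]
      have := Real.exp_one_lt_d9
      linarith
    have e3 : 24 * l ≤ J * Real.log 3 := by nlinarith
    linarith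
  have h3 : (1 / (3:ℝ)) ^ J * Real.exp (6 * 1 + 20 * (21 / 20 * l)) ≤ 1 / L ^ 2 := by
    calc (1 / (3:ℝ)) ^ J * Real.exp (6 * 1 + 20 * (21 / 20 * l))
        ≤ Real.exp (-(24 * l)) * Real.exp (6 * 1 + 20 * (21 / 20 * l)) :=
          mul_le_mul_of_nonneg_right h1 (Real.exp_pos _).le
      _ = Real.exp (6 - 3 * l) := by rw [← Real.exp_add]; congr 1; ring
      _ ≤ Real.exp (-(2 * l)) := Real.exp_le_exp.2 (by linarith)
      _ = 1 / L ^ 2 := by rw [hl]; exact exp_sq_log hL0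
  calc u * (1 / (3:ℝ)) ^ J * Real.exp (6 * 1 + 20 * (21 / 20 * l))
      = u * ((1 / (3:ℝ)) ^ J * Real.exp (6 * 1 + 20 * (21 / 20 * l))) := by ring
    _ ≤ (C / 4 * L) * (1 / L ^ 2) := mul_le_mul hu h3 (by positivity) (by positivity)
    _ = C / (4 * L) := by field_simp
    _ ≤ 1 / 16 := by
        rw [div_le_div_iff₀ (by positivity) (by norm_num)]
        linarith

theorem b_M {l : ℝ} {M : ℕ} (hε : 0 < ε) (hl : 10 ≤ l) (hL : 32 ≤ L)
    (g5 : 16000 * l ≤ ε * L) (hM1 : ε * L / (100 * l) ≤ M) :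
    (17 * (Real.log (Real.exp ((1 / 2 - ε / 4) * L)) / (500 / ε * l)) + 48) * 1 ≤ 2 * M := by
  rw [Real.log_exp, mul_one]
  have hl0 : 0 < l := by linarith
  have hL0 : 0 < L := by linarith
  have e1 : (1 / 2 - ε / 4) * L / (500 / ε * l) ≤ ε * L / (1000 * l) := by
    rw [div_le_div_iff₀ (by positivity) (by positivity)]
    have e2 : ε * L * (500 / ε * l) = 500 * L * l := by field_simp
    rw [e2]
    have e3 : 0 ≤ ε / 4 * L * (1000 * l) := by positivity
    nlinarith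
  have e4 : 48 ≤ 3 * (ε * L / (1000 * l)) := by
    rw [mul_div_assoc', le_div_iff₀ (by positivity)]
    linarith
  have e5 : ε * L / (100 * l) = 10 * (ε * L / (1000 * l)) := by field_simp; norm_num
  rw [e5] at hM1
  linarith

theorem b_pow {u l : ℝ} {M : ℕ} (hε : 0 < ε) (hl : l = Real.log L) (hl1 : 10 ≤ l) (hL : 32 ≤ L)
    (hC : 0 < C) (hLC : 32 * (C + 1) ≤ L) (hu0 : 0 ≤ u) (hu : u ≤ C / 4 * L)
    (g5 : 16000 * l ≤ ε * L) (hM2 : (M:ℝ) ≤ ε * L / (100 * l) + 2) :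
    (L ^ 2 * (u + 1)) ^ M ≤ Real.exp (ε * L / 24) := by
  have hl0 : 0 < l := by linarith
  have hL0 : 0 < L := by linarith
  have hLe : L = Real.exp l := by rw [hl, Real.exp_log hL0]
  have h1 : L ^ 2 * (u + 1) ≤ Real.exp (4 * l) := by
    have e1 : Real.exp (4 * l) = L ^ 2 * L ^ 2 := by
      have : 4 * l = ((4:ℕ):ℝ) * l := by norm_num
      rw [this, Real.exp_nat_mul, ← hLe]
      ring
    rw [e1]
    apply mul_le_mul_of_nonneg_left _ (by positivity)
    nlinarith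
  calc (L ^ 2 * (u + 1)) ^ M ≤ (Real.exp (4 * l)) ^ M := pow_le_pow_left₀ (by positivity) h1 M
    _ = Real.exp (M * (4 * l)) := by rw [← Real.exp_nat_mul]
    _ ≤ Real.exp (ε * L / 24) := by
        apply Real.exp_le_exp.2
        have e2 : (M:ℝ) * (4 * l) ≤ (ε * L / (100 * l) + 2) * (4 * l) :=
          mul_le_mul_of_nonneg_right hM2 (by positivity)
        have e3 : (ε * L / (100 * l) + 2) * (4 * l) = ε * L / 25 + 8 * l := by
          field_simp
          ring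
        linarith

theorem b_fin {u l z N P : ℝ} {J : ℕ} (hε : 0 < ε) (hL : 32 ≤ L) (hC : 0 < C) (hu0 : 0 ≤ u)
    (hu : u ≤ C / 4 * L) (hzJ0 : 0 ≤ z ^ J) (hzJ : z ^ J ≤ Real.exp (ε * L / 16))
    (hP0 : 0 ≤ P) (hP : P ≤ Real.exp (ε * L / 24))
    (f10 : C * L ≤ Real.exp (ε * L / 64)) (f11 : 16 < Real.exp (7 * ε * L / 64))
    (hN : Real.exp ((1 - ε / 8) * L) ≤ N) :
    (P * Real.exp ((1 / 2 - 13 * ε / 64) * L)) ^ 2 * (1 + u * z ^ J) < N / 8 := by
  have hL0 : 0 < L := by linarith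
  have hu64 : u ≤ Real.exp (ε * L / 64) := by
    have : C / 4 * L ≤ C * L := by nlinarith
    linarith
  have h2 : u * z ^ J ≤ Real.exp (ε * L / 64) * Real.exp (ε * L / 16) :=
    mul_le_mul hu64 hzJ hzJ0 (Real.exp_pos _).le
  have h3 : (1:ℝ) ≤ Real.exp (5 * ε * L / 64) := Real.one_le_exp (by positivity)
  have h4 : 1 + u * z ^ J ≤ 2 * Real.exp (5 * ε * L / 64) := by
    have : Real.exp (ε * L / 64) * Real.exp (ε * L / 16) = Real.exp (5 * ε * L / 64) := by
      rw [← Real.exp_add]; congr 1; ring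
    linarith
  have h5 : (P * Real.exp ((1 / 2 - 13 * ε / 64) * L)) ^ 2 ≤ Real.exp ((1 - 20 * ε / 64) * L) := by
    have e1 : P * Real.exp ((1 / 2 - 13 * ε / 64) * L) ≤ Real.exp ((1 / 2 - 10 * ε / 64) * L) := by
      calc P * Real.exp ((1 / 2 - 13 * ε / 64) * L) ≤
            Real.exp (ε * L / 24) * Real.exp ((1 / 2 - 13 * ε / 64) * L) :=
            mul_le_mul_of_nonneg_right hP (Real.exp_pos _).le
        _ = Real.exp (ε * L / 24 + (1 / 2 - 13 * ε / 64) * L) := by rw [← Real.exp_add]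
        _ ≤ _ := by
            apply Real.exp_le_exp.2
            have : 0 ≤ ε * L := by positivity
            nlinarith
    calc (P * Real.exp ((1 / 2 - 13 * ε / 64) * L)) ^ 2 ≤
          (Real.exp ((1 / 2 - 10 * ε / 64) * L)) ^ 2 := pow_le_pow_left₀ (by positivity) e1 2
      _ = _ := by rw [← Real.exp_nat_mul]; congr 1; push_cast; ring
  have h6 : (P * Real.exp ((1 / 2 - 13 * ε / 64) * L)) ^ 2 * (1 + u * z ^ J) ≤
      Real.exp ((1 - 20 * ε / 64) * L) * (2 * Real.exp (5 * ε * L / 64)) := by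
    apply mul_le_mul h5 h4 (by positivity) (Real.exp_pos _).le
  have h7 : Real.exp ((1 - 20 * ε / 64) * L) * (2 * Real.exp (5 * ε * L / 64)) =
      2 * Real.exp ((1 - 15 * ε / 64) * L) := by
    have : Real.exp ((1 - 20 * ε / 64) * L) * Real.exp (5 * ε * L / 64) =
        Real.exp ((1 - 15 * ε / 64) * L) := by
      rw [← Real.exp_add]; congr 1; ring
    calc _ = 2 * (Real.exp ((1 - 20 * ε / 64) * L) * Real.exp (5 * ε * L / 64)) := by
          ring
      _ = _ := by rw [this]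
  have h8 : 2 * Real.exp ((1 - 15 * ε / 64) * L) < Real.exp ((1 - ε / 8) * L) / 8 := by
    have e1 : Real.exp ((1 - ε / 8) * L) = Real.exp ((1 - 15 * ε / 64) * L) *
        Real.exp (7 * ε * L / 64) := by
      rw [← Real.exp_add]; congr 1; ring
    rw [e1]
    have := Real.exp_pos ((1 - 15 * ε / 64) * L)
    nlinarith
  linarith

theorem b_K {W W₁ l : ℝ} (hε4 : ε ≤ 1 / 4) (hW : 0 < W) (hW₁ : 0 < W₁) (hl : 0 < l) :
    W / W₁ * (1 / ((1 - ε / 4) * (W * l))) = 1 / ((1 - ε / 4) * (W₁ * l)) := by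
  have : (1 - ε / 4) ≠ 0 := by linarith
  field_simp

theorem b_G1 {b CR l : ℝ} (hb1 : 1 < b) (hb2 : b ≤ 2) (hl : 10 ≤ l) (hCR : 0 ≤ CR)
    (g4 : 4 * CR ≤ l) : Real.log (2 * l / (b * l)) + CR / (b * l) ≤ 1 := by
  have hl0 : 0 < l := by linarith
  have e1 : 2 * l / (b * l) ≤ 2 := by
    rw [div_le_iff₀ (by positivity)]
    nlinarith
  have e2 : Real.log (2 * l / (b * l)) ≤ Real.log 2 :=
    Real.log_le_log (by positivity) e1
  have e3 := Real.log_two_lt_d9
  have e4 : CR / (b * l) ≤ 1 / 4 := by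
    rw [div_le_div_iff₀ (by positivity) (by norm_num)]
    nlinarith
  linarith

theorem b_B1 {CR l V : ℝ} (hl : 10 ≤ l) (hV : 0 < V) (hCR : 0 ≤ CR)
    (g4 : 4 * CR ≤ l) : Real.exp (Real.log (V * l / (2 * l)) + CR / (2 * l)) ≤ V := by
  have hl0 : 0 < l := by linarith
  have e0 : V * l / (2 * l) = V / 2 := by field_simp
  rw [e0, Real.exp_add, Real.exp_log (by positivity)]
  have e4 : CR / (2 * l) ≤ 1 / 8 := by
    rw [div_le_div_iff₀ (by positivity) (by norm_num)]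
    nlinarith
  have e5 : Real.exp (CR / (2 * l)) ≤ 2 := by
    calc Real.exp (CR / (2 * l)) ≤ Real.exp (1 / 8) := Real.exp_le_exp.2 e4
      _ ≤ Real.exp (Real.log 2) := by
          apply Real.exp_le_exp.2
          have := Real.log_two_gt_d9
          linarith
      _ = 2 := Real.exp_log (by norm_num)
  nlinarith

end

end Pool.Agent.T2h81.RF
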