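import Pool.Agent.T2h81.RF.FRC2_Apply2

set_option autoImplicit false
set_option linter.unusedSectionVars false

/-! # The two-block covering theorem for intervals, under numerical conditions -/

namespace Pool.Agent.T2h81.RF

open Pool.Agent.Y831.RC

open Finset Filter Pool.Agent.H256R2.SC

open scoped Classical

theorem card_two (w y z : ℝ) (hwy : w ≤ y) (hyz : y ≤ z) (hz : 1 ≤ z) :
    ((PS w y ∅).card : ℝ) + (PS y z ∅).card + 1 ≤ z := by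
  have h1 : PS w y ∅ ∪ PS y z ∅ ⊆ PS w z ∅ := by
    intro p hp
    unfold PS at hp ⊢
    rw [Finset.mem_union, Finset.mem_filter, Finset.mem_filter, Finset.mem_Icc,
      Finset.mem_Icc] at hp
    rw [Finset.mem_filter, Finset.mem_Icc]
    rcases hp with ⟨⟨h1, h2⟩, h3, h4, h5⟩ | ⟨⟨h1, h2⟩, h3, h4, h5⟩
    · exact ⟨⟨h1, h2.trans (Nat.floor_le_floor hyz)⟩, h3, h4, h5⟩
    · exact ⟨⟨h1, h2⟩, h3, lt_of_le_of_lt hwy h4, h5⟩
  have h2 : Disjoint (PS w y ∅) (PS y z ∅) := by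
    rw [Finset.disjoint_left]
    intro p hp hp'
    unfold PS at hp hp'
    rw [Finset.mem_filter, Finset.mem_Icc] at hp hp'
    have h4 := hp'.2.2.1
    have h6 : p ≠ 0 := hp.2.1.ne_zero
    have h5 : (p : ℝ) ≤ y := by
      have := hp.1.2
      exact (Nat.le_floor_iff' h6).1 this
    linarith
  have h3 := Finset.card_le_card h1
  rw [Finset.card_union_of_disjoint h2] at h3
  have h4 := card_PS w z hz
  have h5 : ((PS w y ∅).card : ℝ) + (PS y z ∅).card ≤ (PS w z ∅).card := by exact_mod_cast h3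
  linarith

theorem cover_two (w y z K Q δ η s CB G₁ G₂ v₀ : ℝ) (J M : ℕ) (hJ : Even J) (hM : Even M)
    (hw2 : 2 ≤ w) (hwy : w ≤ y) (hyz : y ≤ z)
    (hy9 : 9 ≤ y) (hz1 : 1 < z) (hQ : 1 ≤ Q) (hη0 : 0 < η) (hη1 : η ≤ 1) (hs : 1 ≤ s)
    (hG₁ : ∑ i, 1 / ((emb (PS w y ∅) i : ℕ) : ℝ) ≤ G₁)
    (hG₂ : ∑ i, 1 / ((emb (PS y z ∅) i : ℕ) : ℝ) ≤ G₂)
    (hH : ∃ h, HypS (fun i => ((emb (PS y z ∅) i : ℕ) : ℝ))
      (fun i => 1 / ((emb (PS y z ∅) i : ℕ) : ℝ)) h z K v₀)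
    (hδ : 2 * (Real.log Q / Real.log y) / y ≤ δ)
    (κ : Type) [Fintype κ] [DecidableEq κ] (u : ℝ) (hu : (Fintype.card κ : ℝ) = u)
    (huw : 2 * u ≤ w) (huy : u ≤ y) (huδ : u * δ ≤ 1 / 4) (hv₀ : 0 < v₀)
    (hMm : (17 * (Real.log Q / v₀) + 48) * G₁ ≤ 2 * M)
    (hCB : Q ^ s * Real.exp (2 * u * (y ^ (1 - s) * G₂)) ≤ CB)
    (htail : (u + 1) * (δ ^ 2 + Real.exp (η * ((1 + η) * u * (WW y / WW w * K) / Real.log z -
      Real.log (Q / z) / Real.log z))) ≤ 1 / 16)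
    (hmom : u * (1 / 3) ^ J * Real.exp (6 * G₁ + 20 * G₂) ≤ 1 / 16)
    (res : ℕ → κ → ℤ)
    (hres : ∀ p : ℕ, p.Prime → w < p → (p : ℝ) ≤ z → ∀ k l, k ≠ l →
      ¬ ((p : ℤ) ∣ res p k - res p l))
    (A B : ℤ) (hAB : ((y * (u + 1)) ^ M * CB) ^ 2 * (1 + u * z ^ J) < ((B : ℝ) - A) / 8) :
    ∃ x : ℤ, A < x ∧ x ≤ B ∧ ∀ k : κ, ∃ p : ℕ, p.Prime ∧ w < p ∧ (p : ℝ) ≤ z ∧
      (p : ℤ) ∣ x - res p k := by
  obtain ⟨h, H⟩ := hH
  have hzpos : 0 < z := zero_lt_one.trans hz1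
  have hu0 : 0 ≤ u := by rw [← hu]; positivity
  have hy0 : 0 < y := by linarith
  have hw0 : 0 < w := by linarith
  have hlogy : 0 < Real.log y := Real.log_pos (by linarith)
  set PP₁ : Finset ℕ := PS w y ∅ with hPP₁
  set PP₂ : Finset ℕ := PS y z ∅ with hPP₂
  have hm₁ : ∀ p ∈ PP₁, p.Prime ∧ w < (p:ℝ) ∧ (p:ℝ) ≤ y := fun p hp => PS_mem hy0.le hp
  have hm₂ : ∀ p ∈ PP₂, p.Prime ∧ y < (p:ℝ) ∧ (p:ℝ) ≤ z := fun p hp => PS_mem hzpos.le hp
  have hd : Disjoint PP₁ PP₂ := by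
    rw [Finset.disjoint_left]
    intro p hp hp'
    have h1 := (hm₁ p hp).2.2
    have h2 := (hm₂ p hp').2.1
    linarith
  have hinj₁ : ∀ p ∈ PP₁, ∀ k l : κ, k ≠ l → ¬ ((p : ℤ) ∣ res p k - res p l) := by
    intro p hp
    obtain ⟨h1, h2, h4⟩ := hm₁ p hp
    exact hres p h1 h2 (h4.trans hyz)
  have hinj₂ : ∀ p ∈ PP₂, ∀ k l : κ, k ≠ l → ¬ ((p : ℤ) ∣ res p k - res p l) := by
    intro p hp
    obtain ⟨h1, h2, h4⟩ := hm₂ p hp
    exact hres p h1 (lt_of_le_of_lt hwy h2) h4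
  have hPw : ∀ i, w < ((emb PP₁ i : ℕ) : ℝ) := fun i => (hm₁ _ (emb_mem PP₁ i)).2.1
  have hP₁0 : ∀ i, 0 < ((emb PP₁ i : ℕ) : ℝ) := fun i => hw0.trans (hPw i)
  have hPy : ∀ i, y < ((emb PP₂ i : ℕ) : ℝ) := fun i => (hm₂ _ (emb_mem PP₂ i)).2.1
  have hP0 : ∀ i, 0 < ((emb PP₂ i : ℕ) : ℝ) := fun i => hy0.trans (hPy i)
  have hgy : ∀ i, 1 / ((emb PP₂ i : ℕ) : ℝ) ≤ 1 / y := fun i =>
    one_div_le_one_div_of_le hy0 (hPy i).le
  have h9 : (1:ℝ) / y ≤ 1 / 9 := one_div_le_one_div_of_le (by norm_num) hy9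
  have hG0 : 0 ≤ ∑ i, 1 / ((emb PP₂ i : ℕ) : ℝ) := Finset.sum_nonneg fun i _ => by positivity
  have hG₂0 : 0 ≤ G₂ := hG0.trans hG₂
  have hG10 : 0 ≤ ∑ i, 1 / ((emb PP₁ i : ℕ) : ℝ) := Finset.sum_nonneg fun i _ => by positivity
  have hG₁0 : 0 ≤ G₁ := hG10.trans hG₁
  -- sizes of supports
  have hsupp : ∀ D : Col PP₂.card κ, qq (fun i => ((emb PP₂ i : ℕ) : ℝ)) D ≤ Q →
      2 * ∑ i with D i ≠ none, 1 / ((emb PP₂ i : ℕ) : ℝ) ≤ δ := by
    intro D hD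
    have h1 : Real.exp (((Pool.Agent.H256R2.SC.supp D).card : ℝ) * Real.log y) ≤
        qq (fun i => ((emb PP₂ i : ℕ) : ℝ)) D := by
      unfold qq
      rw [prod_nu1]
      have : Real.exp (((Pool.Agent.H256R2.SC.supp D).card : ℝ) * Real.log y) =
          ∏ i ∈ Pool.Agent.H256R2.SC.supp D, Real.exp (Real.log y) := by
        rw [Finset.prod_const, ← Real.exp_nat_mul]
      rw [this]
      apply Finset.prod_le_prod
      · intro i _; exact (Real.exp_pos _).le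
      · intro i _
        rw [Real.exp_log hy0]
        exact (hPy i).le
    have h2 := h1.trans hD
    have h3 : ((Pool.Agent.H256R2.SC.supp D).card : ℝ) * Real.log y ≤ Real.log Q := by
      rw [Real.le_log_iff_exp_le (by linarith)]
      exact h2
    have h4 : ((Pool.Agent.H256R2.SC.supp D).card : ℝ) ≤ Real.log Q / Real.log y := by
      rw [le_div_iff₀ hlogy]
      exact h3
    have h5 : ∑ i with D i ≠ none, 1 / ((emb PP₂ i : ℕ) : ℝ) ≤
        (Pool.Agent.H256R2.SC.supp D).card * (1 / y) := by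
      have : ∑ i ∈ Pool.Agent.H256R2.SC.supp D, 1 / ((emb PP₂ i : ℕ) : ℝ) ≤
          ∑ i ∈ Pool.Agent.H256R2.SC.supp D, (1 / y) :=
        Finset.sum_le_sum (fun i _ => hgy i)
      rw [Finset.sum_const, nsmul_eq_mul] at this
      exact this
    refine le_trans ?_ hδ
    calc 2 * ∑ i with D i ≠ none, 1 / ((emb PP₂ i : ℕ) : ℝ) ≤
          2 * ((Pool.Agent.H256R2.SC.supp D).card * (1 / y)) :=
          mul_le_mul_of_nonneg_left h5 (by norm_num)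
      _ ≤ 2 * (Real.log Q / Real.log y * (1 / y)) := by
          apply mul_le_mul_of_nonneg_left _ (by norm_num)
          exact mul_le_mul_of_nonneg_right h4 (by positivity)
      _ = 2 * (Real.log Q / Real.log y) / y := by ring
  -- the count
  have hz0 : (1:ℝ) ≤ z ^ J := one_le_pow₀ hz1.le
  have hNpos : 0 < (B:ℝ) - A := by
    have : 0 ≤ ((y * (u + 1)) ^ M * CB) ^ 2 * (1 + u * z ^ J) := by positivity
    linarith
  have hABle : A ≤ B := by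
    have h2 : (A:ℝ) ≤ B := by linarith
    exact_mod_cast h2
  have hevent : ∀ D : Col (PP₁.card + PP₂.card) κ,
      |((((Ioc A B).filter (fun a => ∀ i, D i ≠ none →
        (Fin.append (colr PP₁ res a) (colr PP₂ res a) : Col (PP₁.card + PP₂.card) κ) i =
          D i)).card : ℕ) : ℝ) -
        ((B:ℝ) - A) * nu (Fin.append (fun i => 1 / ((emb PP₁ i : ℕ) : ℝ))
          (fun i => 1 / ((emb PP₂ i : ℕ) : ℝ))) D| ≤ 1 := by
    intro D
    obtain ⟨r, hr⟩ := event_two (fun p hp => (hm₁ p hp).1) (fun p hp => (hm₂ p hp).1) hd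
      hinj₁ hinj₂ D
    have h1 : ((Ioc A B).filter (fun a => ∀ i, D i ≠ none →
        (Fin.append (colr PP₁ res a) (colr PP₂ res a) : Col (PP₁.card + PP₂.card) κ) i = D i)) =
        (Ioc A B).filter (fun a => ((qn PP₁ (fstc D) * qn PP₂ (sndc D) : ℕ) : ℤ) ∣ a - r) := by
      apply Finset.filter_congr
      intro a _
      exact hr a
    have hq : 0 < qn PP₁ (fstc D) * qn PP₂ (sndc D) :=
      Nat.mul_pos (Nat.pos_of_ne_zero (qn_squarefree (fun p hp => (hm₁ p hp).1) _).ne_zero)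
        (Nat.pos_of_ne_zero (qn_squarefree (fun p hp => (hm₂ p hp).1) _).ne_zero)
    rw [h1, nu_append, nu_eq PP₁ (fstc D), nu_eq PP₂ (sndc D)]
    have h2 := LG.count_Ioc A B hABle _ hq r
    have h3 : ((B:ℝ) - A) * (1 / ((qn PP₁ (fstc D) : ℕ) : ℝ) * (1 / ((qn PP₂ (sndc D) : ℕ) : ℝ))) =
        ((B:ℝ) - A) / ((qn PP₁ (fstc D) * qn PP₂ (sndc D) : ℕ) : ℝ) := by
      push_cast
      rw [one_div_mul_one_div, mul_one_div]
    rw [h3]
    exact h2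
  have hn1 : (PP₁.card:ℝ) + 1 ≤ y := card_PS w y (by linarith)
  have hn2 : (PP₁.card:ℝ) + PP₂.card + 1 ≤ z := card_two w y z hwy hyz hz1.le
  have c1 : ∀ i, 1 / ((emb PP₂ i : ℕ) : ℝ) ≤ 1 := fun i => (hgy i).trans (by linarith)
  have c2 : ∀ i, 3 * 3 * (1 / ((emb PP₂ i : ℕ) : ℝ)) ≤ 1 := fun i => by
    have := hgy i
    linarith
  have c3 : ∀ i, (Fintype.card κ : ℝ) * (1 / ((emb PP₂ i : ℕ) : ℝ)) ≤ 1 := fun i => by
    rw [hu, mul_one_div, div_le_one (hP0 i)]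
    exact huy.trans (hPy i).le
  have c3' : ∀ i, (Fintype.card κ : ℝ) * (1 / ((emb PP₁ i : ℕ) : ℝ)) ≤ 1 / 2 := fun i => by
    rw [hu, mul_one_div, div_le_div_iff₀ (hP₁0 i) (by norm_num)]
    have := (hPw i).le
    linarith
  have c4 : Q ^ s * Real.exp (2 * (Fintype.card κ : ℝ) * ∑ i, 1 / ((emb PP₂ i : ℕ) : ℝ) ^ s) ≤ CB := by
    refine le_trans ?_ hCB
    apply mul_le_mul_of_nonneg_left _ (Real.rpow_nonneg (by linarith) _)
    apply Real.exp_le_exp.2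
    rw [hu]
    apply mul_le_mul_of_nonneg_left _ (by positivity)
    calc ∑ i, 1 / ((emb PP₂ i : ℕ) : ℝ) ^ s ≤ ∑ i, y ^ (1 - s) * (1 / ((emb PP₂ i : ℕ) : ℝ)) := by
          apply Finset.sum_le_sum
          intro i _
          have e1 : 1 / ((emb PP₂ i : ℕ) : ℝ) ^ s = ((emb PP₂ i : ℕ) : ℝ) ^ (1 - s) *
              (1 / ((emb PP₂ i : ℕ) : ℝ)) := by
            rw [Real.rpow_sub (hP0 i), Real.rpow_one]
            have := (hP0 i).ne'
            field_simp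
          rw [e1]
          apply mul_le_mul_of_nonneg_right _ (by positivity)
          exact Real.rpow_le_rpow_of_nonpos hy0 (hPy i).le (by linarith)
      _ = y ^ (1 - s) * ∑ i, 1 / ((emb PP₂ i : ℕ) : ℝ) := by rw [Finset.mul_sum]
      _ ≤ y ^ (1 - s) * G₂ := mul_le_mul_of_nonneg_left hG₂ (Real.rpow_nonneg hy0.le _)
  have c5 : (Fintype.card κ : ℝ) * (1 / 3) ^ J *
      Real.exp (6 * (∑ i, 1 / ((emb PP₁ i : ℕ) : ℝ)) + 20 * ∑ i, 1 / ((emb PP₂ i : ℕ) : ℝ)) ≤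
      1 / 16 := by
    refine le_trans ?_ hmom
    rw [hu]
    apply mul_le_mul_of_nonneg_left _ (by positivity)
    apply Real.exp_le_exp.2
    linarith
  have hlogQ : 0 ≤ Real.log Q := Real.log_nonneg hQ
  have cM : (17 * (Real.log Q / v₀) + 48) * ∑ i, 1 / ((emb PP₁ i : ℕ) : ℝ) ≤ 2 * M := by
    refine le_trans ?_ hMm
    apply mul_le_mul_of_nonneg_left hG₁
    positivity
  have hn0 : (0:ℝ) ≤ (PP₁.card:ℝ) + PP₂.card + 1 := by positivity
  have hCB0 : 0 ≤ CB := le_trans (by positivity) c4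
  have c6 : (1:ℝ) * (((((PP₁.card:ℝ) + 1) * ((Fintype.card κ : ℝ) + 1)) ^ M * CB) ^ 2 *
      (1 + Fintype.card κ * ((PP₁.card:ℝ) + PP₂.card + 1) ^ J)) < ((B:ℝ) - A) / 8 := by
    refine lt_of_le_of_lt ?_ hAB
    rw [hu, one_mul]
    have e1 : (((PP₁.card:ℝ) + 1) * (u + 1)) ^ M ≤ (y * (u + 1)) ^ M := by
      apply pow_le_pow_left₀ (by positivity)
      exact mul_le_mul_of_nonneg_right hn1 (by linarith)
    have e2 : ((((PP₁.card:ℝ) + 1) * (u + 1)) ^ M * CB) ^ 2 ≤ ((y * (u + 1)) ^ M * CB) ^ 2 := by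
      apply pow_le_pow_left₀ (by positivity)
      exact mul_le_mul_of_nonneg_right e1 hCB0
    have e3 := pow_le_pow_left₀ hn0 hn2 J
    have e4 := mul_le_mul_of_nonneg_left e3 hu0
    apply mul_le_mul e2 (by linarith) (by positivity) (by positivity)
  have hrho := rho_PS w y hw2 hwy
  have hWpos := WW_pos w
  have hWpos' := WW_pos y
  have c7 : (Fintype.card κ + 1 : ℝ) * (δ ^ 2 + Real.exp (η * ((1 + η) * (Fintype.card κ : ℝ) *
      (rho (fun i => 1 / ((emb PP₁ i : ℕ) : ℝ)) 1 * K) / Real.log z -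
        Real.log (Q / z) / Real.log z))) ≤ 1 / 16 := by
    rw [hu, hPP₁, hrho]
    exact htail
  have c8 : (Fintype.card κ : ℝ) * δ ≤ 1 / 4 := by rw [hu]; exact huδ
  have c9 : 0 ≤ rho (fun i => 1 / ((emb PP₁ i : ℕ) : ℝ)) 1 := by
    rw [hPP₁, hrho]
    positivity
  obtain ⟨a, ha, hcov⟩ := core_two (κ := κ) (Ioc A B)
    (fun a => (Fin.append (colr PP₁ res a) (colr PP₂ res a) : Col (PP₁.card + PP₂.card) κ))
    H (fun i => 1 / ((emb PP₁ i : ℕ) : ℝ)) Q δ ((B:ℝ) - A) 1 η s CB J M hJ hM hNpos zero_le_one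
    hQ hη0 hη1 (by linarith) (fun i => by have := hP₁0 i; positivity) c3' c9 c1 c2 c3 hsupp c8
    cM c4 c7 c5 hevent c6
  rw [Finset.mem_Ioc] at ha
  refine ⟨a, ha.1, ha.2, fun k => ?_⟩
  obtain ⟨i, hi⟩ := hcov k
  revert hi
  refine Fin.addCases (fun j hj => ?_) (fun j hj => ?_) i
  · rw [Fin.append_left] at hj
    have h1 := (colr_eq hinj₁ a j k).mp hj
    have h2 := hm₁ _ (emb_mem PP₁ j)
    exact ⟨emb PP₁ j, h2.1, h2.2.1, h2.2.2.trans hyz, h1⟩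
  · rw [Fin.append_right] at hj
    have h1 := (colr_eq hinj₂ a j k).mp hj
    have h2 := hm₂ _ (emb_mem PP₂ j)
    exact ⟨emb PP₂ j, h2.1, lt_of_le_of_lt hwy h2.2.1, h2.2.2, h1⟩

end Pool.Agent.T2h81.RF
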