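import Pool.Agent.T2h81.RF.FRC5_Par6
import Pool.Agent.T2h81.RF.FRC5_Apply5

set_option autoImplicit false
set_option linter.unusedSectionVars false
set_option linter.unusedVariables false

/-! # The covering theorem in the full range -/

namespace Pool.Agent.T2h81.RF

open Pool.Agent.Y831.RC

open Finset Filter Pool.Agent.H256R2.SC

open scoped Classical

theorem q_half : Real.exp (1 / 2) ≤ 2 := by
  have e1 := Real.exp_one_lt_d9
  have e2 : Real.exp 1 = Real.exp (1 / 2) * Real.exp (1 / 2) := by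
    rw [← Real.exp_add]; norm_num
  have e3 := Real.exp_pos (1 / 2 : ℝ)
  nlinarith

theorem q_Y {Y e : ℝ} (hY : 0 < Y) (he : 1 ≤ e) : Y ≤ Y * e ^ 2 := by
  have : 1 ≤ e ^ 2 := one_le_pow₀ he
  nlinarith

theorem q_rv {ε L e : ℝ} (hε : 0 < ε) (hL : 0 < L) :
    (1 / 2 - ε) * L / (L * Real.exp (-e)) ≤ Real.exp e / 2 := by
  have hE := Real.exp_pos e
  rw [Real.exp_neg, div_le_iff₀ (by positivity)]
  have e1 : Real.exp e / 2 * (L * (Real.exp e)⁻¹) = L / 2 := by field_simp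
  rw [e1]
  nlinarith

theorem q_mul {a b x : ℝ} (h : a ≤ b) (hx : 0 ≤ x) : a * x ≤ b * x :=
  mul_le_mul_of_nonneg_right h hx

theorem q_log1 {K₀ e : ℝ} (hK : 1000 ≤ K₀) (he : 1 ≤ e) (h : Real.log (K₀ * e) ≤ e / K₀) :
    Real.log e ≤ e / 20 := by
  have he0 : 0 < e := by linarith
  have e1 : Real.log e ≤ Real.log (K₀ * e) := by
    apply Real.log_le_log he0
    nlinarith
  have e2 : e / K₀ ≤ e / 20 := div_le_div_of_nonneg_left he0.le (by norm_num) (by linarith)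
  linarith

theorem q_log2 {K₀ e ε : ℝ} (hε : 0 < ε) (hK : 1000 ≤ K₀) (he : 1 ≤ e)
    (h : Real.log (K₀ * e) ≤ e / K₀) (hK2 : 100 / ε ^ 2 ≤ K₀) (hK3 : 300 / ε ≤ K₀) :
    Real.log (100 * e / ε ^ 2) ≤ ε / 4 * e := by
  have he0 : 0 < e := by linarith
  have e1 : Real.log (100 * e / ε ^ 2) ≤ Real.log (K₀ * e) := by
    apply Real.log_le_log (by positivity)
    have : 100 * e / ε ^ 2 = 100 / ε ^ 2 * e := by ring
    rw [this]
    exact mul_le_mul_of_nonneg_right hK2 he0.le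
  have e2 : e / K₀ ≤ ε / 4 * e := by
    rw [div_le_iff₀ (by linarith)]
    have e3 : 4 ≤ ε * K₀ := by
      have := mul_le_mul_of_nonneg_left hK3 hε.le
      have e4 : ε * (300 / ε) = 300 := by field_simp
      linarith
    nlinarith
  linarith

theorem q_cube {K₀ e : ℝ} (hK : 1000 ≤ K₀) (he : 1 ≤ e) (h : K₀ * e ^ 3 ≤ Real.exp e) :
    e ^ 3 ≤ Real.exp e := by
  have h0 : 0 ≤ e ^ 3 := by positivity
  nlinarith

theorem q_wy {L Y ε M₀ w : ℝ} (hL : 0 < L) (hε1 : ε ≤ 1) (hM : 8 ≤ M₀) (hl : 1 ≤ Real.log L)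
    (hw : w = L ^ (1 + ε)) (hY : M₀ * Real.log L ≤ Y) : w ≤ Real.exp Y := by
  have hw0 : 0 < w := by rw [hw]; positivity
  have hlw : Real.log w = (1 + ε) * Real.log L := by rw [hw, Real.log_rpow hL]
  rw [← Real.exp_log hw0, hlw]
  apply Real.exp_le_exp.2
  have : (1 + ε) * Real.log L ≤ M₀ * Real.log L := mul_le_mul_of_nonneg_right (by linarith) (by linarith)
  linarith

/-- the second block -/
theorem blk2_prof (ε c C CR : ℝ) (hε : 0 < ε) (hε4 : ε ≤ 1 / 4) (hc : 0 < c)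
    (hWb : ∀ y : ℝ, 2 ≤ y → c ≤ WW y * Real.log y ∧ WW y * Real.log y ≤ C)
    (hSR : ∀ a b : ℝ, 2 ≤ a → a ≤ b →
    ∑ p ∈ (Finset.Ioc ⌊a⌋₊ ⌊b⌋₊).filter Nat.Prime, (1 : ℝ) / p ≤
      Real.log (Real.log b / Real.log a) + CR / Real.log a)
    (L e Y Z : ℝ) (hL : 1 ≤ L) (he1 : 1 ≤ e) (hY0 : 0 < Y) (hY : Y = L * Real.exp (-e) / e ^ 2)
    (hZ : Z = ε ^ 2 * L / (100 * e)) (hYZ : Y ≤ Z) (hvZ : L * Real.exp (-e) ≤ Z)
    (hlog1 : Real.log e ≤ e / 20) (hlog2 : Real.log (100 * e / ε ^ 2) ≤ ε / 4 * e)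
    (hCR : CR / Y ≤ 1 / 2) (he1000 : 1000 ≤ e) (hK4 : 64 / (c * ε) ≤ e) (hY8 : 8 ≤ Y)
    (hYε : 64 / ε ≤ Y) (m₀ : ℕ) (hm₀ : 20 * e ≤ m₀) :
    (∑ i, 1 / ((emb (PS (Real.exp Y) (Real.exp Z) ∅) i : ℕ) : ℝ) ≤ 11 / 10 * e) ∧
    ∃ h, HypS (fun i => ((emb (PS (Real.exp Y) (Real.exp Z) ∅) i : ℕ) : ℝ))
      (fun i => 1 / ((emb (PS (Real.exp Y) (Real.exp Z) ∅) i : ℕ) : ℝ))
      h (Real.exp Z) (1 / ((1 - ε) * WW (Real.exp Y) * e)) (L * Real.exp (-e)) ∧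
        ∀ s, h s ≠ 0 → s.card ≤ m₀ := by
  have hL0 : 0 < L := by linarith only [hL]
  have he0 : 0 < e := by linarith only [he1]
  set y : ℝ := Real.exp Y with hy
  set z : ℝ := Real.exp Z with hz
  have hly : Real.log y = Y := Real.log_exp Y
  have hlz : Real.log z = Z := Real.log_exp Z
  have hyY : Y + 1 ≤ y := Real.add_one_le_exp Y
  have hyz : y ≤ z := Real.exp_le_exp.2 hYZ
  have hy2 : 2 ≤ y := by linarith only [hY8, hyY]
  have hz1 : 1 < z := by linarith only [hy2, hyz]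
  obtain ⟨hWy1, hWy2⟩ := hWb y hy2
  rw [hly] at hWy1 hWy2
  have hV0 := WW_pos y
  set V : ℝ := WW y with hV
  have hG₂ : ∑ i, 1 / ((emb (PS y z ∅) i : ℕ) : ℝ) ≤ 11 / 10 * e := by
    have h1 := sum_block CR hSR y z hy2 hyz
    rw [hly, hlz] at h1
    exact h1.trans (p_G2 hε hε4 hL0 he1 hY0 hY hZ hlog1 CR (by linarith only [hCR, he1000]))
  refine ⟨hG₂, ?_⟩
  set v₀ : ℝ := L * Real.exp (-e) with hv₀
  have hv₀0 : 0 < v₀ := by positivity
  have hYv : v₀ = Y * e ^ 2 := by rw [hY]; field_simp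
  have hB : ∑ s : Finset (Fin (PS y z ∅).card) with
      Real.log (∏ i ∈ s, ((emb (PS y z ∅) i : ℕ) : ℝ)) < v₀,
      ∏ i ∈ s, 1 / ((emb (PS y z ∅) i : ℕ) : ℝ) ≤ 2 * e ^ 2 := by
    refine (small_PS y z v₀ (by linarith only [hz1]) (by linarith only [hy2])).trans ?_
    have hyv : y ≤ Real.exp v₀ := by
      apply Real.exp_le_exp.2
      rw [hYv]
      exact q_Y hY0 he1
    have h1 := hSR y (Real.exp v₀) hy2 hyv
    rw [Real.log_exp, hly] at h1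
    have h2 : v₀ / Y = e ^ 2 := by rw [hYv]; field_simp
    rw [h2] at h1
    calc Real.exp (∑ p ∈ (Finset.Ioc ⌊y⌋₊ ⌊Real.exp v₀⌋₊).filter Nat.Prime, (1 : ℝ) / p)
        ≤ Real.exp (Real.log (e ^ 2) + 1 / 2) := Real.exp_le_exp.2 (by linarith only [h1, hCR])
      _ = e ^ 2 * Real.exp (1 / 2) := by rw [Real.exp_add, Real.exp_log (by positivity)]
      _ ≤ e ^ 2 * 2 := mul_le_mul_of_nonneg_left q_half (by positivity)
      _ = 2 * e ^ 2 := by ring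
  have hlgv : (1 - ε / 4) * e ≤ Real.log (Real.log z / v₀) := by
    rw [hlz]
    exact p_logZv hε hL0 he0 hZ hlog2
  have h1ε : 0 < 1 - ε := by linarith only [hε4]
  exact profileT_PS m₀ y z v₀ ((1 - ε) * V * e) (2 * e ^ 2) (11 / 10 * e) hy2
    hz1 hv₀0 (by rw [hlz]; exact hvZ) (by positivity) hB hG₂
    (p_A hε hε4 hL he1 hc hY hV0 hWy1 hK4 _ hlgv y (by linarith only [hYε, hyY]) m₀ hm₀)
    (p_BA hε hε4 hL he1 hc hY hV0 hWy1 hK4)

theorem q_E8 {E e : ℝ} (he : 1 ≤ e) (hE : E ≤ Real.exp (-(20 * e))) : E ≤ 1 / 8 := by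
  have e1 : Real.exp (-(20 * e)) ≤ Real.exp (-7) := Real.exp_le_exp.2 (by linarith)
  have e2 : Real.exp (-7) ≤ 1 / 8 := by
    rw [Real.exp_neg, one_div]
    apply inv_anti₀ (by norm_num)
    have := Real.add_one_le_exp (7:ℝ)
    linarith
  linarith

theorem q_τ {e : ℝ} (he : 1000 ≤ e) (b₀ : ℕ) (hb₀ : 4 * e ≤ b₀) :
    Real.exp e * (1 / 3) ^ b₀ ≤ Real.exp (-130) * Real.exp (-(2 * e)) := by
  have e1 := third_le_exp b₀ (4 * e) hb₀
  calc Real.exp e * (1 / 3) ^ b₀ ≤ Real.exp e * Real.exp (-(4 * e)) :=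
        mul_le_mul_of_nonneg_left e1 (Real.exp_pos e).le
    _ = Real.exp (e + -(4 * e)) := by rw [← Real.exp_add]
    _ ≤ Real.exp (-130 + -(2 * e)) := Real.exp_le_exp.2 (by linarith)
    _ = _ := by rw [← Real.exp_add]

end Pool.Agent.T2h81.RF
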