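import Pool.Agent.T2h81.RF.FRC5_Blk5

set_option autoImplicit false
set_option linter.unusedSectionVars false
set_option linter.unusedVariables false

/-! # Parameter inequalities for the full range -/

namespace Pool.Agent.T2h81.RF

open Pool.Agent.Y831.RC

open Filter

/-- conditions on the parameter `e` (written `ℓ` in the comments) -/
theorem ev_e (K₀ : ℝ) (hK : 1 ≤ K₀) : ∃ e₀ : ℝ, ∀ e : ℝ, e₀ ≤ e →
    K₀ ≤ e ∧ K₀ * e ^ 3 ≤ Real.exp e ∧ Real.log (K₀ * e) ≤ e / K₀ := by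
  have h1 : ∀ᶠ e : ℝ in atTop, K₀ * e ^ 3 ≤ Real.exp e := by
    have h := (Real.isLittleO_pow_exp_atTop (n := 3)).def (show (0:ℝ) < 1 / K₀ by positivity)
    filter_upwards [h, eventually_ge_atTop (0:ℝ)] with e he he0
    rw [Real.norm_of_nonneg (by positivity), Real.norm_of_nonneg (Real.exp_pos e).le] at he
    have h2 : K₀ * e ^ 3 ≤ K₀ * (1 / K₀ * Real.exp e) := mul_le_mul_of_nonneg_left he (by linarith)
    have h3 : K₀ * (1 / K₀ * Real.exp e) = Real.exp e := by field_simp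
    linarith
  have h2 : ∀ᶠ e : ℝ in atTop, Real.log (K₀ * e) ≤ e / K₀ := by
    have h := Real.isLittleO_log_id_atTop.def (show (0:ℝ) < 1 / (2 * K₀) by positivity)
    filter_upwards [h, eventually_ge_atTop (max 1 (2 * K₀ * Real.log K₀))] with e he he0
    have he1 : 1 ≤ e := (le_max_left _ _).trans he0
    have he2 : 2 * K₀ * Real.log K₀ ≤ e := (le_max_right _ _).trans he0
    rw [Real.norm_of_nonneg (Real.log_nonneg he1), id, Real.norm_of_nonneg (by linarith)] at he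
    rw [Real.log_mul (by positivity) (by positivity)]
    have h3 : Real.log K₀ ≤ 1 / (2 * K₀) * e := by
      rw [div_mul_eq_mul_div, one_mul, le_div_iff₀ (by positivity)]
      linarith
    have h4 : e / K₀ = 1 / (2 * K₀) * e + 1 / (2 * K₀) * e := by field_simp; norm_num
    linarith
  obtain ⟨e₀, he₀⟩ := Filter.eventually_atTop.1 (h1.and (h2.and (eventually_ge_atTop K₀)))
  exact ⟨e₀, fun e he => ⟨(he₀ e he).2.2, (he₀ e he).1, (he₀ e he).2.1⟩⟩

/-- conditions on `L` -/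
theorem ev_L5 (ε M₀ : ℝ) (hε : 0 < ε) (hε1 : ε ≤ 1) (hM : 1 ≤ M₀) : ∃ L₀ : ℝ, ∀ L : ℝ, L₀ ≤ L →
    M₀ ≤ L ∧ 1 ≤ Real.log L ∧ M₀ ≤ L ^ ε ∧ Real.log L * M₀ ≤ L ∧
    ∀ e : ℝ, 1 ≤ e → e ≤ (1 - ε) * Real.log L → M₀ * Real.log L ≤ L * Real.exp (-e) / e ^ 2 := by
  have h1 : ∀ᶠ L : ℝ in atTop, M₀ * (Real.log L) ^ (3:ℝ) ≤ L ^ ε := by
    have h := (isLittleO_log_rpow_rpow_atTop 3 hε).def (show (0:ℝ) < 1 / M₀ by positivity)
    filter_upwards [h, eventually_ge_atTop (1:ℝ)] with L hL hL1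
    rw [Real.norm_of_nonneg (Real.rpow_nonneg (Real.log_nonneg hL1) _),
      Real.norm_of_nonneg (Real.rpow_nonneg (by linarith) _)] at hL
    have h2 : M₀ * (Real.log L) ^ (3:ℝ) ≤ M₀ * (1 / M₀ * L ^ ε) :=
      mul_le_mul_of_nonneg_left hL (by linarith)
    have h3 : M₀ * (1 / M₀ * L ^ ε) = L ^ ε := by field_simp
    linarith
  obtain ⟨L₀, hL₀⟩ := Filter.eventually_atTop.1 (h1.and (eventually_ge_atTop (max M₀ (Real.exp 1))))
  refine ⟨L₀, fun L hL => ?_⟩
  obtain ⟨h2, h3⟩ := hL₀ L hL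
  have hLM : M₀ ≤ L := (le_max_left _ _).trans h3
  have hLe : Real.exp 1 ≤ L := (le_max_right _ _).trans h3
  have hL0 : 0 < L := (Real.exp_pos 1).trans_le hLe
  have hl1 : 1 ≤ Real.log L := by rw [Real.le_log_iff_exp_le hL0]; exact hLe
  have hL1 : 1 ≤ L := by linarith
  have h2' : M₀ * (Real.log L) ^ (3:ℕ) ≤ L ^ ε := by
    have e0 : (Real.log L) ^ (3:ℝ) = (Real.log L) ^ (3:ℕ) := by
      have := Real.rpow_natCast (Real.log L) 3
      push_cast at this
      exact this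
    rw [← e0]
    exact h2
  have hl2 : 1 ≤ (Real.log L) ^ 2 := one_le_pow₀ hl1
  have hl3 : Real.log L ≤ (Real.log L) ^ 3 := by nlinarith
  have hLε : L ^ ε ≤ L := by
    calc L ^ ε ≤ L ^ (1:ℝ) := Real.rpow_le_rpow_of_exponent_le hL1 hε1
      _ = L := Real.rpow_one L
  have hl31 : 1 ≤ (Real.log L) ^ 3 := one_le_pow₀ hl1
  have hM0 : 0 ≤ M₀ := by linarith
  refine ⟨hLM, hl1, ?_, ?_, ?_⟩
  · calc M₀ = M₀ * 1 := (mul_one _).symm
      _ ≤ M₀ * (Real.log L) ^ (3:ℕ) := mul_le_mul_of_nonneg_left hl31 hM0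
      _ ≤ _ := h2'
  · calc Real.log L * M₀ = M₀ * Real.log L := mul_comm _ _
      _ ≤ M₀ * (Real.log L) ^ (3:ℕ) := mul_le_mul_of_nonneg_left hl3 hM0
      _ ≤ L ^ ε := h2'
      _ ≤ L := hLε
  · intro e he1 he
    have he0 : 0 < e := by linarith
    have hel : e ≤ Real.log L := by nlinarith
    have h4 : L ^ ε ≤ L * Real.exp (-e) := by
      have h5 : Real.exp (-((1 - ε) * Real.log L)) ≤ Real.exp (-e) := Real.exp_le_exp.2 (by linarith)
      calc L ^ ε = L * Real.exp (-((1 - ε) * Real.log L)) := by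
            rw [Real.rpow_def_of_pos hL0]
            conv_rhs => rw [← Real.exp_log hL0]
            rw [Real.log_exp, ← Real.exp_add]
            congr 1
            ring
        _ ≤ _ := mul_le_mul_of_nonneg_left h5 hL0.le
    rw [le_div_iff₀ (by positivity)]
    have h6 : e ^ 2 ≤ (Real.log L) ^ 2 := by nlinarith
    have h7 : M₀ * Real.log L * e ^ 2 ≤ M₀ * Real.log L * (Real.log L) ^ 2 :=
      mul_le_mul_of_nonneg_left h6 (by nlinarith)
    calc M₀ * Real.log L * e ^ 2 ≤ M₀ * Real.log L * (Real.log L) ^ 2 := h7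
      _ = M₀ * (Real.log L) ^ 3 := by ring
      _ ≤ L ^ ε := h2'
      _ ≤ _ := h4

/-! ### elementary inequalities

`Y = log y`, `Z = log z`, `V = WW y`, `W = WW w` -/

variable {L e ε Y Z V W c C : ℝ}

theorem p_YZ (hε : 0 < ε) (hε4 : ε ≤ 1 / 4) (hL : 0 < L) (he : 100 / ε ^ 2 ≤ e)
    (h3 : e ^ 3 ≤ Real.exp e) (hY : Y = L * Real.exp (-e) / e ^ 2)
    (hZ : Z = ε ^ 2 * L / (100 * e)) :
    Y ≤ Z ∧ L * Real.exp (-e) ≤ Z ∧ 0 < Z ∧ 0 < Y ∧ 0 < e ∧ 1 ≤ e := by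
  have he1 : 1 ≤ e := by
    refine le_trans ?_ he
    rw [le_div_iff₀ (by positivity)]
    nlinarith
  have he0 : 0 < e := by linarith
  have hE : Real.exp (-e) * Real.exp e = 1 := by rw [← Real.exp_add]; simp
  have hE0 := Real.exp_pos (-e)
  have hv : L * Real.exp (-e) ≤ Z := by
    rw [hZ, le_div_iff₀ (by positivity)]
    have h4 : 100 ≤ e * ε ^ 2 := by
      rw [div_le_iff₀ (by positivity)] at he
      exact he
    have h5 : 100 * e * Real.exp (-e) ≤ ε ^ 2 := by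
      have h6 : 100 * e ≤ ε ^ 2 * Real.exp e := by
        have h7 : ε ^ 2 * e ^ 3 ≤ ε ^ 2 * Real.exp e := mul_le_mul_of_nonneg_left h3 (by positivity)
        nlinarith
      have h8 := mul_le_mul_of_nonneg_right h6 hE0.le
      calc 100 * e * Real.exp (-e) ≤ ε ^ 2 * Real.exp e * Real.exp (-e) := h8
        _ = ε ^ 2 * (Real.exp (-e) * Real.exp e) := by ring
        _ = ε ^ 2 := by rw [hE, mul_one]
    nlinarith
  have hYv : Y ≤ L * Real.exp (-e) := by
    rw [hY]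
    apply div_le_self (by positivity)
    exact one_le_pow₀ he1
  refine ⟨hYv.trans hv, hv, ?_, ?_, he0, he1⟩
  · rw [hZ]; positivity
  · rw [hY]; positivity

/-- the mass of the second block -/
theorem p_G2 (hε : 0 < ε) (hε4 : ε ≤ 1 / 4) (hL : 0 < L) (he1 : 1 ≤ e) (hY0 : 0 < Y)
    (hY : Y = L * Real.exp (-e) / e ^ 2) (hZ : Z = ε ^ 2 * L / (100 * e))
    (hlog : Real.log e ≤ e / 20) (CR : ℝ) (hCR : CR / Y ≤ e / 20) :
    Real.log (Z / Y) + CR / Y ≤ 11 / 10 * e := by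
  have he0 : 0 < e := by linarith
  have hE0 := Real.exp_pos e
  have h1 : Z / Y = ε ^ 2 / 100 * (e * Real.exp e) := by
    have h2 : Real.exp (-e) = (Real.exp e)⁻¹ := Real.exp_neg e
    rw [hZ, hY, h2]
    field_simp
  have h3 : Z / Y ≤ e * Real.exp e := by
    rw [h1]
    have : ε ^ 2 / 100 ≤ 1 := by nlinarith
    have h4 : 0 ≤ e * Real.exp e := by positivity
    nlinarith
  have h5 : Real.log (Z / Y) ≤ Real.log e + e := by
    have h6 : Real.log (Z / Y) ≤ Real.log (e * Real.exp e) :=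
      Real.log_le_log (by rw [h1]; positivity) h3
    rwa [Real.log_mul he0.ne' hE0.ne', Real.log_exp] at h6
  linarith

theorem p_logZv (hε : 0 < ε) (hL : 0 < L) (he0 : 0 < e)
    (hZ : Z = ε ^ 2 * L / (100 * e)) (hlog : Real.log (100 * e / ε ^ 2) ≤ ε / 4 * e) :
    (1 - ε / 4) * e ≤ Real.log (Z / (L * Real.exp (-e))) := by
  have hE0 := Real.exp_pos e
  have h1 : Z / (L * Real.exp (-e)) = Real.exp e / (100 * e / ε ^ 2) := by
    have h2 : Real.exp (-e) = (Real.exp e)⁻¹ := Real.exp_neg e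
    rw [hZ, h2]
    field_simp
  rw [h1, Real.log_div hE0.ne' (by positivity), Real.log_exp]
  linarith

/-- the profile inequality -/
theorem p_A (hε : 0 < ε) (hε4 : ε ≤ 1 / 4) (hL : 1 ≤ L) (he1 : 1 ≤ e) (hc : 0 < c)
    (hY : Y = L * Real.exp (-e) / e ^ 2) (hV0 : 0 < V) (hcV : c ≤ V * Y) (hec : 64 / (c * ε) ≤ e)
    (lg : ℝ) (hlg : (1 - ε / 4) * e ≤ lg) (y : ℝ) (hy : 64 / ε ≤ y) (m₀ : ℝ) (hm₀ : 20 * e ≤ m₀) :
    (1 - ε) * V * e ≤ V / (1 + 2 / y) * lg - 2 * e ^ 2 / (L * Real.exp (-e)) -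
      Real.exp (3 * (11 / 10 * e) - m₀) / (L * Real.exp (-e)) := by
  have he0 : 0 < e := by linarith
  have hy0 : 0 < y := lt_of_lt_of_le (by positivity) hy
  have hEn := Real.exp_pos (-e)
  have hv : 0 < L * Real.exp (-e) := by positivity
  have hYv : L * Real.exp (-e) = Y * e ^ 2 := by rw [hY]; field_simp
  have hY0 : 0 < Y := by rw [hY]; positivity
  -- first factor
  have h1 : V * (1 - ε / 16) ≤ V / (1 + 2 / y) := by
    rw [le_div_iff₀ (by positivity)]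
    have h2 : 2 / y ≤ ε / 32 := by
      rw [div_le_iff₀ hy0]
      have := mul_le_mul_of_nonneg_left hy hε.le
      have h3 : ε * (64 / ε) = 64 := by field_simp
      rw [h3] at this
      linarith
    have h3 : (1 - ε / 16) * (1 + 2 / y) ≤ 1 := by
      have h4 : 0 ≤ 2 / y := by positivity
      nlinarith
    calc V * (1 - ε / 16) * (1 + 2 / y) = V * ((1 - ε / 16) * (1 + 2 / y)) := by ring
      _ ≤ V * 1 := mul_le_mul_of_nonneg_left h3 hV0.le
      _ = V := mul_one V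
  have h2 : V * (1 - ε / 16) * ((1 - ε / 4) * e) ≤ V / (1 + 2 / y) * lg := by
    apply mul_le_mul h1 hlg
    · have : 0 ≤ 1 - ε / 4 := by linarith
      positivity
    · positivity
  -- second term
  have h3 : 2 * e ^ 2 / (L * Real.exp (-e)) = 2 / Y := by
    rw [hYv]; field_simp
  have h4 : 2 / Y ≤ ε / 32 * e * V := by
    rw [div_le_iff₀ hY0]
    have h5 : 64 ≤ e * (c * ε) := by rw [div_le_iff₀ (by positivity)] at hec; exact hec
    have h6 : e * ε * c ≤ e * ε * (V * Y) := mul_le_mul_of_nonneg_left hcV (by positivity)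
    nlinarith
  -- third term
  have h5 : Real.exp (3 * (11 / 10 * e) - m₀) / (L * Real.exp (-e)) ≤ ε / 32 * e * V := by
    have h6 : Real.exp (3 * (11 / 10 * e) - m₀) ≤ 1 := by
      rw [Real.exp_le_one_iff]
      linarith
    have h7 : 1 / (L * Real.exp (-e)) ≤ 2 / Y := by
      rw [hYv, div_le_div_iff₀ (by positivity) hY0]
      have : 1 ≤ e ^ 2 := one_le_pow₀ he1
      nlinarith
    calc Real.exp (3 * (11 / 10 * e) - m₀) / (L * Real.exp (-e)) ≤ 1 / (L * Real.exp (-e)) :=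
          div_le_div_of_nonneg_right h6 hv.le
      _ ≤ 2 / Y := h7
      _ ≤ _ := h4
  rw [h3]
  have h6 : (1 - ε) * V * e ≤ V * (1 - ε / 16) * ((1 - ε / 4) * e) - ε / 32 * e * V -
      ε / 32 * e * V := by
    have h7 : 0 ≤ V * e := by positivity
    have h8 : (1 - ε) ≤ (1 - ε / 16) * (1 - ε / 4) - ε / 32 - ε / 32 := by nlinarith
    have h9 := mul_le_mul_of_nonneg_left h8 h7
    linarith
  linarith

theorem p_BA (hε : 0 < ε) (hε4 : ε ≤ 1 / 4) (hL : 1 ≤ L) (he1 : 1 ≤ e) (hc : 0 < c)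
    (hY : Y = L * Real.exp (-e) / e ^ 2) (hV0 : 0 < V) (hcV : c ≤ V * Y) (hec : 64 / (c * ε) ≤ e) :
    2 * e ^ 2 ≤ (1 - ε) * V * e * (L * Real.exp (-e)) := by
  have he0 : 0 < e := by linarith
  have hYv : L * Real.exp (-e) = Y * e ^ 2 := by rw [hY]; field_simp
  rw [hYv]
  have h5 : 64 ≤ e * (c * ε) := by rw [div_le_iff₀ (by positivity)] at hec; exact hec
  have h6 : 64 ≤ e * c := by
    have : e * (c * ε) ≤ e * c := by
      have h7 : 0 ≤ e * c := by positivity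
      nlinarith
    linarith
  have h7 : e * c ≤ e * (V * Y) := mul_le_mul_of_nonneg_left hcV he0.le
  have h8 : 2 ≤ (1 - ε) * (e * (V * Y)) := by nlinarith
  have h9 := mul_le_mul_of_nonneg_right h8 (show 0 ≤ e ^ 2 by positivity)
  calc 2 * e ^ 2 ≤ (1 - ε) * (e * (V * Y)) * e ^ 2 := h9
    _ = _ := by ring

/-- the size of `u ρ₁` -/
theorem p_lam (hε : 0 < ε) (hε4 : ε ≤ 1 / 4) (hL : 1 ≤ L) (he1 : 1 ≤ e) (hV0 : 0 < V)
    (hW0 : 0 < W) (hCV : V * Y ≤ C) (hY : Y = L * Real.exp (-e) / e ^ 2)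
    (u : ℝ) (hu0 : 0 ≤ u) (hu : u ≤ (1 / 2 - 3 * ε) * (e * L * W)) :
    0 ≤ u * (V / W) ∧ u * (V / W) ≤ (1 / 2 - 3 * ε) * (e * L * V) ∧
      2 * (u * (V / W)) ≤ C * e ^ 3 * Real.exp e := by
  have he0 : 0 < e := by linarith
  have hE0 := Real.exp_pos e
  have hY0 : 0 < Y := by rw [hY]; positivity
  have h1 : u * (V / W) ≤ (1 / 2 - 3 * ε) * (e * L * V) := by
    have h2 := mul_le_mul_of_nonneg_right hu (show 0 ≤ V / W by positivity)
    have h3 : (1 / 2 - 3 * ε) * (e * L * W) * (V / W) = (1 / 2 - 3 * ε) * (e * L * V) := by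
      field_simp
    linarith
  have h2 : L = Y * e ^ 2 * Real.exp e := by
    rw [hY, Real.exp_neg]
    field_simp
  refine ⟨by positivity, h1, ?_⟩
  have h3 : 0 ≤ e * L * V := by positivity
  have h4 : 2 * (u * (V / W)) ≤ e * L * V := by nlinarith
  refine h4.trans ?_
  calc e * L * V = (V * Y) * (e ^ 3 * Real.exp e) := by
        conv_lhs => rw [h2]
        ring
    _ ≤ C * (e ^ 3 * Real.exp e) := mul_le_mul_of_nonneg_right hCV (by positivity)
    _ = _ := by ring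

/-- the exponent in the tail estimate -/
theorem p_exp (hε : 0 < ε) (hε4 : ε ≤ 1 / 4) (hL : 1 ≤ L) (he1 : 1 ≤ e) (hV0 : 0 < V)
    (hZ : Z = ε ^ 2 * L / (100 * e)) (lam : ℝ)
    (hlam : lam ≤ (1 / 2 - 3 * ε) * (e * L * V)) :
    ε * ((1 + ε) * (lam * (1 / ((1 - ε) * V * e))) / Z - ((1 / 2 - ε) * L - Z) / Z) ≤ -(20 * e) := by
  have he0 : 0 < e := by linarith
  have hZ0 : 0 < Z := by rw [hZ]; positivity
  have h1 : lam * (1 / ((1 - ε) * V * e)) ≤ (1 / 2 - 3 * ε) * L / (1 - ε) := by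
    have h2 : 0 < (1 - ε) * V * e := by
      have : 0 < 1 - ε := by linarith
      positivity
    have h3 := mul_le_mul_of_nonneg_right hlam (show 0 ≤ 1 / ((1 - ε) * V * e) by positivity)
    have h4 : (1 / 2 - 3 * ε) * (e * L * V) * (1 / ((1 - ε) * V * e)) =
        (1 / 2 - 3 * ε) * L / (1 - ε) := by
      have : (1 - ε) ≠ 0 := by linarith
      field_simp
    linarith
  have h2 : (1 + ε) * (lam * (1 / ((1 - ε) * V * e))) ≤ (1 / 2 - 3 / 2 * ε) * L := by
    have h3 := mul_le_mul_of_nonneg_left h1 (show 0 ≤ 1 + ε by linarith)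
    refine h3.trans ?_
    rw [mul_div_assoc', div_le_iff₀ (by linarith)]
    have h4 : (1 + ε) * (1 / 2 - 3 * ε) ≤ (1 / 2 - 3 / 2 * ε) * (1 - ε) := by nlinarith
    have h5 := mul_le_mul_of_nonneg_right h4 (show 0 ≤ L by linarith)
    linarith
  have h3 : Z ≤ ε / 100 * L := by
    rw [hZ, div_le_iff₀ (by positivity)]
    have h4 : ε ^ 2 ≤ ε * e := by nlinarith
    have h5 := mul_le_mul_of_nonneg_right h4 (show 0 ≤ L by linarith)
    linarith
  have h4 : (1 + ε) * (lam * (1 / ((1 - ε) * V * e))) - ((1 / 2 - ε) * L - Z) ≤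
      -(ε / 5 * L) := by nlinarith
  rw [← sub_div, mul_div_assoc', div_le_iff₀ hZ0]
  have h5 := mul_le_mul_of_nonneg_left h4 hε.le
  refine h5.trans (le_of_eq ?_)
  rw [hZ]
  field_simp
  ring

end Pool.Agent.T2h81.RF
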