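import Pool.Agent.T2h81.RF.FRC5_Par5

set_option autoImplicit false
set_option linter.unusedSectionVars false
set_option linter.unusedVariables false

/-! # Parameter inequalities for the full range, second part -/

namespace Pool.Agent.T2h81.RF

open Pool.Agent.Y831.RC

open Filter

variable {L e ε Y Z V W c C : ℝ}

theorem third_le_exp (n : ℕ) (x : ℝ) (h : x ≤ n) : ((1:ℝ) / 3) ^ n ≤ Real.exp (-x) := by
  have h1 : (1:ℝ) / 3 ≤ Real.exp (-1) := by
    rw [Real.exp_neg, one_div]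
    apply inv_anti₀ (Real.exp_pos 1)
    have := Real.exp_one_lt_d9
    linarith
  calc ((1:ℝ) / 3) ^ n ≤ (Real.exp (-1)) ^ n := pow_le_pow_left₀ (by norm_num) h1 n
    _ = Real.exp (-n) := by rw [← Real.exp_nat_mul]; congr 1; ring
    _ ≤ Real.exp (-x) := Real.exp_le_exp.2 (by linarith)

theorem p_mom (he1 : 1 ≤ e) (hC0 : 0 ≤ C) (h3 : 12 * C * e ^ 3 ≤ Real.exp e) (lam : ℝ)
    (hlam0 : 0 ≤ lam) (hlam : 2 * lam ≤ C * e ^ 3 * Real.exp e) (J : ℕ) (hJ : 30 * e ≤ J) :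
    2 * lam * ((1 / 3) ^ J * Real.exp (20 * (11 / 10 * e))) ≤ 1 / 12 := by
  have h1 := third_le_exp J (30 * e) hJ
  have hE := Real.exp_pos e
  have h2 : (1 / 3 : ℝ) ^ J * Real.exp (20 * (11 / 10 * e)) ≤ Real.exp (-(8 * e)) := by
    calc (1 / 3 : ℝ) ^ J * Real.exp (20 * (11 / 10 * e)) ≤
          Real.exp (-(30 * e)) * Real.exp (20 * (11 / 10 * e)) :=
          mul_le_mul_of_nonneg_right h1 (Real.exp_pos _).le
      _ = Real.exp (-(8 * e)) := by rw [← Real.exp_add]; congr 1; ring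
  calc 2 * lam * ((1 / 3) ^ J * Real.exp (20 * (11 / 10 * e)))
      ≤ (C * e ^ 3 * Real.exp e) * Real.exp (-(8 * e)) :=
        mul_le_mul hlam h2 (by positivity) (by positivity)
    _ ≤ (C * e ^ 3 * Real.exp e) * Real.exp (-(2 * e)) := by
        apply mul_le_mul_of_nonneg_left _ (by positivity)
        exact Real.exp_le_exp.2 (by linarith)
    _ = (12 * C * e ^ 3) * Real.exp (-e) / 12 := by
        have : Real.exp (-(2 * e)) = Real.exp (-e) * Real.exp (-e) := by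
          rw [← Real.exp_add]; congr 1; ring
        have h4 : Real.exp e * Real.exp (-e) = 1 := by rw [← Real.exp_add]; simp
        rw [this]
        calc C * e ^ 3 * Real.exp e * (Real.exp (-e) * Real.exp (-e)) =
              C * e ^ 3 * (Real.exp e * Real.exp (-e)) * Real.exp (-e) := by ring
          _ = _ := by rw [h4]; ring
    _ ≤ Real.exp e * Real.exp (-e) / 12 := by
        have := mul_le_mul_of_nonneg_right h3 (Real.exp_pos (-e)).le
        linarith
    _ = 1 / 12 := by rw [← Real.exp_add]; simp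

theorem p_pen (he1 : 1 ≤ e) (hC0 : 0 ≤ C) (h3 : 12 * C * e ^ 3 ≤ Real.exp e) (lam : ℝ)
    (hlam0 : 0 ≤ lam) (hlam : 2 * lam ≤ C * e ^ 3 * Real.exp e) :
    2 * lam * Real.exp (20 * (11 / 10 * e)) ≤ Real.exp (24 * e) / 12 := by
  have hE := Real.exp_pos e
  have e1 : Real.exp (24 * e) = Real.exp e * Real.exp e * Real.exp (20 * (11 / 10 * e)) := by
    rw [← Real.exp_add, ← Real.exp_add]; congr 1; ring
  have e2 := Real.exp_pos (20 * (11 / 10 * e))
  have e3 : 2 * lam ≤ Real.exp e * Real.exp e / 12 := by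
    have := mul_le_mul_of_nonneg_right h3 hE.le
    linarith
  have e4 := mul_le_mul_of_nonneg_right e3 e2.le
  rw [e1]
  linarith

theorem p_tail (he1 : 1 ≤ e) (hC0 : 0 ≤ C) (h3 : 72 * C * e ^ 3 ≤ Real.exp e) (lam : ℝ)
    (hlam0 : 0 ≤ lam) (hlam : 2 * lam ≤ C * e ^ 3 * Real.exp e) (heL : Real.exp e ≤ L) (E : ℝ)
    (hE : E ≤ Real.exp (-(20 * e))) :
    4 * lam * (Real.exp (-(2 * e)) + ((1 / L ^ 4) ^ 2 + E)) ≤ 1 / 12 := by
  have hE0 := Real.exp_pos e
  have hL0 : 0 < L := hE0.trans_le heL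
  have h2 : Real.exp (-(2 * e)) = Real.exp (-e) * Real.exp (-e) := by
    rw [← Real.exp_add]; congr 1; ring
  have h4 : Real.exp e * Real.exp (-e) = 1 := by rw [← Real.exp_add]; simp
  have h5 : E ≤ Real.exp (-(2 * e)) := hE.trans (Real.exp_le_exp.2 (by linarith))
  have h6 : (1 / L ^ 4) ^ 2 ≤ Real.exp (-(2 * e)) := by
    have e1 : (1 / L ^ 4) ^ 2 = 1 / L ^ 8 := by
      rw [div_pow, one_pow, ← pow_mul]
    have e2 : Real.exp (2 * e) ≤ L ^ 8 := by
      calc Real.exp (2 * e) ≤ Real.exp (8 * e) := Real.exp_le_exp.2 (by linarith)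
        _ = (Real.exp e) ^ 8 := by rw [← Real.exp_nat_mul]; norm_num
        _ ≤ L ^ 8 := pow_le_pow_left₀ hE0.le heL 8
    rw [e1, Real.exp_neg, one_div]
    exact inv_anti₀ (Real.exp_pos _) e2
  have h7 : 4 * lam * Real.exp (-(2 * e)) ≤ 1 / 36 := by
    have e1 : 4 * lam ≤ 2 * (C * e ^ 3 * Real.exp e) := by linarith
    calc 4 * lam * Real.exp (-(2 * e)) ≤ 2 * (C * e ^ 3 * Real.exp e) * Real.exp (-(2 * e)) :=
          mul_le_mul_of_nonneg_right e1 (Real.exp_pos _).le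
      _ = (72 * C * e ^ 3) * Real.exp (-e) / 36 := by
          rw [h2]
          calc 2 * (C * e ^ 3 * Real.exp e) * (Real.exp (-e) * Real.exp (-e)) =
              2 * C * e ^ 3 * (Real.exp e * Real.exp (-e)) * Real.exp (-e) := by ring
            _ = _ := by rw [h4]; ring
      _ ≤ Real.exp e * Real.exp (-e) / 36 := by
          have := mul_le_mul_of_nonneg_right h3 (Real.exp_pos (-e)).le
          linarith
      _ = 1 / 36 := by rw [h4]
  have h8 : Real.exp (-(2 * e)) + ((1 / L ^ 4) ^ 2 + E) ≤ 3 * Real.exp (-(2 * e)) := by linarith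
  have h9 := mul_le_mul_of_nonneg_left h8 (show 0 ≤ 4 * lam by linarith)
  linarith

/-- `L ^ k ≤ y` -/
theorem p_pow (hL : 1 ≤ L) (k : ℕ) (hk : (k:ℝ) * Real.log L ≤ Y) : L ^ k ≤ Real.exp Y := by
  have hL0 : 0 < L := by linarith
  calc L ^ k = Real.exp (k * Real.log L) := by
        rw [← Real.log_pow, Real.exp_log (by positivity)]
    _ ≤ Real.exp Y := Real.exp_le_exp.2 hk

theorem p_δ (hε : 0 < ε) (hε4 : ε ≤ 1 / 4) (hL : 2 ≤ L) (hY1 : 1 ≤ Y) (hY : 5 * Real.log L ≤ Y) :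
    2 * ((1 / 2 - ε) * L / Y) / Real.exp Y ≤ 1 / L ^ 4 := by
  have hL0 : 0 < L := by linarith
  have h1 := p_pow (L := L) (Y := Y) (by linarith) 5 (by push_cast; exact hY)
  have h2 : 2 * ((1 / 2 - ε) * L / Y) ≤ L := by
    have h3 : (1 / 2 - ε) * L / Y ≤ (1 / 2 - ε) * L := by
      apply div_le_self _ hY1
      have : 0 ≤ 1 / 2 - ε := by linarith
      positivity
    nlinarith
  rw [div_le_div_iff₀ (Real.exp_pos _) (by positivity)]
  calc 2 * ((1 / 2 - ε) * L / Y) * L ^ 4 ≤ L * L ^ 4 := mul_le_mul_of_nonneg_right h2 (by positivity)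
    _ = L ^ 5 := by ring
    _ ≤ Real.exp Y := h1
    _ = 1 * Real.exp Y := (one_mul _).symm

theorem p_u2 (hL : 2 ≤ L) (hlL : Real.log L ≤ L) (he0 : 0 ≤ e) (hel : e ≤ Real.log L)
    (hW0 : 0 < W) (hW1 : W ≤ 1) (hε : 0 < ε) (u : ℝ) (hu : u ≤ (1 / 2 - 3 * ε) * (e * L * W)) :
    u ≤ L ^ 2 / 2 := by
  have h0 : 0 ≤ e * L * W := by positivity
  have h1 : u ≤ 1 / 2 * (e * L * W) := by nlinarith
  have h2 : e * L * W ≤ L ^ 2 := by
    calc e * L * W ≤ e * L * 1 := mul_le_mul_of_nonneg_left hW1 (by positivity)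
      _ ≤ L * L * 1 := by
          apply mul_le_mul_of_nonneg_right _ zero_le_one
          exact mul_le_mul_of_nonneg_right (hel.trans hlL) (by linarith)
      _ = L ^ 2 := by ring
  linarith

theorem p_uδ (hL : 2 ≤ L) (u : ℝ) (hu : u ≤ L ^ 2 / 2) : u * (1 / L ^ 4) ≤ 1 / 4 := by
  have hL0 : 0 < L := by linarith
  rw [mul_one_div, div_le_div_iff₀ (by positivity) (by norm_num)]
  have h1 : (4:ℝ) ≤ L ^ 2 := by nlinarith
  nlinarith [sq_nonneg (L ^ 2)]

theorem p_uw (hL : 1 ≤ L) (hl : 1 ≤ Real.log L) (he0 : 0 ≤ e) (hel : e ≤ Real.log L)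
    (hW0 : 0 < W) (hε : 0 < ε) (hCW : W * ((1 + ε) * Real.log L) ≤ C) (hCL : C ≤ L ^ ε)
    (u : ℝ) (hu : u ≤ (1 / 2 - 3 * ε) * (e * L * W)) :
    2 * u ≤ L ^ (1 + ε) := by
  have hL0 : 0 < L := by linarith
  have h0 : 0 ≤ e * L * W := by positivity
  have h1 : 2 * u ≤ e * L * W := by nlinarith
  have h2 : e * W ≤ C := by
    calc e * W ≤ Real.log L * W := mul_le_mul_of_nonneg_right hel hW0.le
      _ ≤ W * ((1 + ε) * Real.log L) := by
          have : 0 ≤ ε * (Real.log L * W) := by positivity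
          nlinarith
      _ ≤ C := hCW
  rw [Real.rpow_add hL0, Real.rpow_one]
  calc 2 * u ≤ e * L * W := h1
    _ = L * (e * W) := by ring
    _ ≤ L * C := mul_le_mul_of_nonneg_left h2 hL0.le
    _ ≤ L * L ^ ε := mul_le_mul_of_nonneg_left hCL hL0.le

theorem p_CB (hε : 0 < ε) (hL : 2 ≤ L) (hl : 1 ≤ Real.log L) (hlL : Real.log L ≤ L) (he0 : 0 ≤ e)
    (hel : e ≤ Real.log L) (u : ℝ) (hu0 : 0 ≤ u) (hu : u ≤ L ^ 2 / 2)
    (hY : 160 / ε * Real.log L ≤ Y) :
    (Real.exp ((1 / 2 - ε) * L)) ^ (1 + ε / 16) *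
      Real.exp (2 * u * ((Real.exp Y) ^ (1 - (1 + ε / 16)) * (11 / 10 * e))) ≤
      Real.exp ((1 / 2 - ε) * (1 + ε / 16) * L + 1) := by
  have hL0 : 0 < L := by linarith
  have h1 : (Real.exp ((1 / 2 - ε) * L)) ^ (1 + ε / 16) =
      Real.exp ((1 / 2 - ε) * (1 + ε / 16) * L) := by
    rw [← Real.exp_mul]
    congr 1
    ring
  have h2 : (Real.exp Y) ^ (1 - (1 + ε / 16)) ≤ 1 / L ^ 10 := by
    rw [← Real.exp_mul]
    have h3 : Y * (1 - (1 + ε / 16)) ≤ -(10 * Real.log L) := by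
      have h4 : 160 / ε * Real.log L * (ε / 16) ≤ Y * (ε / 16) :=
        mul_le_mul_of_nonneg_right hY (by positivity)
      have h5 : 160 / ε * Real.log L * (ε / 16) = 10 * Real.log L := by field_simp; norm_num
      rw [h5] at h4
      linarith
    refine (Real.exp_le_exp.2 h3).trans (le_of_eq ?_)
    rw [Real.exp_neg, one_div]
    congr 1
    have : (10:ℝ) * Real.log L = Real.log (L ^ 10) := by rw [Real.log_pow]; norm_num
    rw [this, Real.exp_log (by positivity)]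
  rw [h1, ← Real.exp_add]
  apply Real.exp_le_exp.2
  apply add_le_add le_rfl
  have h3 : 11 / 10 * e ≤ 2 * L := by linarith
  calc 2 * u * ((Real.exp Y) ^ (1 - (1 + ε / 16)) * (11 / 10 * e))
      ≤ L ^ 2 * (1 / L ^ 10 * (2 * L)) := by
        apply mul_le_mul (by linarith) _ (by positivity) (by positivity)
        exact mul_le_mul h2 h3 (by positivity) (by positivity)
    _ = 2 / L ^ 7 := by field_simp
    _ ≤ 1 := by
        rw [div_le_one (by positivity)]
        calc (2:ℝ) ≤ L := hL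
          _ = L ^ 1 := (pow_one L).symm
          _ ≤ L ^ 7 := pow_le_pow_right₀ (by linarith) (by norm_num)

/-- the total error -/
theorem p_AB (hε : 0 < ε) (hε4 : ε ≤ 1 / 4) (hL : 2 ≤ L) (hl : 1 ≤ Real.log L)
    (hlL : 200 / ε * Real.log L ≤ L) (he : 300 / ε ≤ e) (he1 : 8 ≤ e)
    (hY : Y = L * Real.exp (-e) / e ^ 2) (hZ : Z = ε ^ 2 * L / (100 * e))
    (u : ℝ) (hu0 : 0 ≤ u) (hu : u ≤ L ^ 2 / 2) (b₀ J r : ℕ) (hb₀ : (b₀:ℝ) ≤ 4 * e + 2)
    (hJ : (J:ℝ) ≤ 30 * e + 2) (hr : (r:ℝ) ≤ Real.exp e) (N : ℝ)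
    (hN : Real.exp ((1 - ε) * L) ≤ N) :
    ((Real.exp (Y * (2 * b₀ + 4))) ^ r * Real.exp ((1 / 2 - ε) * (1 + ε / 16) * L + 1)) ^ 2 *
      (1 + u * (Real.exp (Y * (2 * b₀ + 4)) * ((Real.exp Z) ^ J + 1))) < N / 8 := by
  have hL0 : 0 < L := by linarith
  have he0 : 0 < e := by linarith
  have hE := Real.exp_pos e
  have hE1 : 1 ≤ Real.exp e := Real.one_le_exp he0.le
  have hY0 : 0 < Y := by rw [hY]; positivity
  have hZ0 : 0 < Z := by rw [hZ]; positivity
  have hYe : Y * Real.exp e * e = L / e := by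
    rw [hY, Real.exp_neg]
    field_simp
  have h1 : Y * (2 * b₀ + 4) ≤ 9 * (Y * e) := by
    have : 2 * (b₀:ℝ) + 4 ≤ 9 * e := by linarith
    calc Y * (2 * b₀ + 4) ≤ Y * (9 * e) := mul_le_mul_of_nonneg_left this hY0.le
      _ = _ := by ring
  have h1L : Y * (2 * b₀ + 4) ≤ 9 * (L / e) := by
    rw [← hYe]
    have : Y * e ≤ Y * Real.exp e * e := by
      have h2 : 0 ≤ Y * e := by positivity
      nlinarith
    linarith
  have h2 : (Real.exp (Y * (2 * b₀ + 4))) ^ r ≤ Real.exp (9 * (L / e)) := by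
    rw [← Real.exp_nat_mul]
    apply Real.exp_le_exp.2
    have h3 : (0:ℝ) ≤ 9 * (Y * e) := by positivity
    calc (r:ℝ) * (Y * (2 * b₀ + 4)) ≤ Real.exp e * (9 * (Y * e)) :=
          mul_le_mul hr h1 (by positivity) hE.le
      _ = 9 * (L / e) := by rw [← hYe]; ring
  have h3 : (Real.exp Z) ^ J ≤ Real.exp (31 / 100 * (ε ^ 2 * L)) := by
    rw [← Real.exp_nat_mul]
    apply Real.exp_le_exp.2
    have h4 : (J:ℝ) * Z ≤ 31 * e * Z := mul_le_mul_of_nonneg_right (by linarith) hZ0.le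
    refine h4.trans (le_of_eq ?_)
    rw [hZ]
    field_simp
  have hL2 : L ^ 2 = Real.exp (2 * Real.log L) := by
    have : (2:ℝ) * Real.log L = Real.log (L ^ 2) := by rw [Real.log_pow]; norm_num
    rw [this, Real.exp_log (by positivity)]
  have h4 : 1 + u * (Real.exp (Y * (2 * b₀ + 4)) * ((Real.exp Z) ^ J + 1)) ≤
      2 * Real.exp (2 * Real.log L + 9 * (L / e) + 31 / 100 * (ε ^ 2 * L)) := by
    have e1 : Real.exp (Y * (2 * b₀ + 4)) ≤ Real.exp (9 * (L / e)) := Real.exp_le_exp.2 h1L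
    have e2 : (Real.exp Z) ^ J + 1 ≤ 2 * Real.exp (31 / 100 * (ε ^ 2 * L)) := by
      have : 1 ≤ Real.exp (31 / 100 * (ε ^ 2 * L)) := Real.one_le_exp (by positivity)
      linarith
    have e3 : u * (Real.exp (Y * (2 * b₀ + 4)) * ((Real.exp Z) ^ J + 1)) ≤
        L ^ 2 / 2 * (Real.exp (9 * (L / e)) * (2 * Real.exp (31 / 100 * (ε ^ 2 * L)))) := by
      apply mul_le_mul hu _ (by positivity) (by positivity)
      exact mul_le_mul e1 e2 (by positivity) (by positivity)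
    have e4 : L ^ 2 / 2 * (Real.exp (9 * (L / e)) * (2 * Real.exp (31 / 100 * (ε ^ 2 * L)))) =
        Real.exp (2 * Real.log L + 9 * (L / e) + 31 / 100 * (ε ^ 2 * L)) := by
      rw [Real.exp_add, Real.exp_add, ← hL2]
      ring
    have e5 : 1 ≤ Real.exp (2 * Real.log L + 9 * (L / e) + 31 / 100 * (ε ^ 2 * L)) :=
      Real.one_le_exp (by positivity)
    linarith
  have h5 : ((Real.exp (Y * (2 * b₀ + 4))) ^ r *
      Real.exp ((1 / 2 - ε) * (1 + ε / 16) * L + 1)) ^ 2 ≤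
      Real.exp (18 * (L / e) + (1 - 2 * ε) * (1 + ε / 16) * L + 2) := by
    calc ((Real.exp (Y * (2 * b₀ + 4))) ^ r *
        Real.exp ((1 / 2 - ε) * (1 + ε / 16) * L + 1)) ^ 2 ≤
          (Real.exp (9 * (L / e)) * Real.exp ((1 / 2 - ε) * (1 + ε / 16) * L + 1)) ^ 2 := by
          apply pow_le_pow_left₀ (by positivity)
          exact mul_le_mul_of_nonneg_right h2 (Real.exp_pos _).le
      _ = _ := by
          rw [← Real.exp_add, ← Real.exp_nat_mul]
          congr 1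
          push_cast
          ring
  have h6 : ((Real.exp (Y * (2 * b₀ + 4))) ^ r *
      Real.exp ((1 / 2 - ε) * (1 + ε / 16) * L + 1)) ^ 2 *
      (1 + u * (Real.exp (Y * (2 * b₀ + 4)) * ((Real.exp Z) ^ J + 1))) ≤
      Real.exp (18 * (L / e) + (1 - 2 * ε) * (1 + ε / 16) * L + 2) *
      (2 * Real.exp (2 * Real.log L + 9 * (L / e) + 31 / 100 * (ε ^ 2 * L))) :=
    mul_le_mul h5 h4 (by positivity) (by positivity)
  refine lt_of_le_of_lt h6 ?_
  have h7 : Real.exp (18 * (L / e) + (1 - 2 * ε) * (1 + ε / 16) * L + 2) *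
      (2 * Real.exp (2 * Real.log L + 9 * (L / e) + 31 / 100 * (ε ^ 2 * L))) =
      2 * Real.exp ((18 * (L / e) + (1 - 2 * ε) * (1 + ε / 16) * L + 2) +
        (2 * Real.log L + 9 * (L / e) + 31 / 100 * (ε ^ 2 * L))) := by
    rw [Real.exp_add (18 * (L / e) + (1 - 2 * ε) * (1 + ε / 16) * L + 2)]
    ring
  rw [h7]
  have h8 : (18 * (L / e) + (1 - 2 * ε) * (1 + ε / 16) * L + 2) +
        (2 * Real.log L + 9 * (L / e) + 31 / 100 * (ε ^ 2 * L)) + 3 ≤ (1 - ε) * L := by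
    have e1 : 300 ≤ e * ε := by rw [div_le_iff₀ hε] at he; exact he
    have e2 : L / e ≤ ε / 300 * L := by
      rw [div_le_iff₀ he0]
      nlinarith
    have e3 : Real.log L ≤ ε / 200 * L := by
      have := mul_le_mul_of_nonneg_left hlL (show 0 ≤ ε / 200 by positivity)
      have h9 : ε / 200 * (200 / ε * Real.log L) = Real.log L := by field_simp
      linarith
    have e4 : (1 - 2 * ε) * (1 + ε / 16) ≤ 1 - 31 / 16 * ε := by nlinarith
    have e5 := mul_le_mul_of_nonneg_right e4 hL0.le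
    have e6 : ε ^ 2 * L ≤ ε / 4 * L := by
      apply mul_le_mul_of_nonneg_right _ hL0.le
      nlinarith
    have e7 : 0 < ε * L := by positivity
    nlinarith
  have h9 : Real.exp ((18 * (L / e) + (1 - 2 * ε) * (1 + ε / 16) * L + 2) +
        (2 * Real.log L + 9 * (L / e) + 31 / 100 * (ε ^ 2 * L))) * Real.exp 3 ≤ N := by
    rw [← Real.exp_add]
    exact (Real.exp_le_exp.2 h8).trans hN
  have h10 : (17:ℝ) ≤ Real.exp 3 := by
    have e1 := Real.exp_one_gt_d9
    have e2 : Real.exp 3 = Real.exp 1 * Real.exp 1 * Real.exp 1 := by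
      rw [← Real.exp_add, ← Real.exp_add]; norm_num
    have e3 : (27/10) ≤ Real.exp 1 := by linarith
    have e4 : (27/10:ℝ) * (27/10) ≤ Real.exp 1 * Real.exp 1 :=
      mul_le_mul e3 e3 (by norm_num) (by linarith)
    have e5 : (27/10:ℝ) * (27/10) * (27/10) ≤ Real.exp 1 * Real.exp 1 * Real.exp 1 :=
      mul_le_mul e4 e3 (by norm_num) (by linarith)
    rw [e2]
    linarith
  have h11 := Real.exp_pos ((18 * (L / e) + (1 - 2 * ε) * (1 + ε / 16) * L + 2) +
        (2 * Real.log L + 9 * (L / e) + 31 / 100 * (ε ^ 2 * L)))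
  nlinarith

/-- the loss in the count -/
theorem p_loss (K₀ : ℝ) (hK : 1000 ≤ K₀) (he : 1000 ≤ e) (hlog : Real.log (K₀ * e) ≤ e / K₀)
    (J r : ℕ) (hJ : (J:ℝ) ≤ 30 * e + 2) (hr : (r:ℝ) ≤ Real.exp e) :
    (3 * (1 + 3 * Real.exp (11 / 10 * e) * ((J : ℝ) + 2) ^ (2 * J) *
      (Real.exp (24 * e) + 1)) ^ r) ^ 2 ≤ Real.exp (e ^ 2 * Real.exp e) := by
  have he0 : 0 < e := by linarith
  have hJ0 : (0:ℝ) ≤ J := Nat.cast_nonneg J
  have h1 : ((J : ℝ) + 2) ^ (2 * J) ≤ Real.exp (e ^ 2 / 10) := by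
    have e1 : ((J : ℝ) + 2) ≤ K₀ * e := by nlinarith
    have e2 : ((J : ℝ) + 2) ≤ Real.exp (e / K₀) := by
      refine e1.trans ?_
      rw [← Real.log_le_iff_le_exp (by positivity)]
      exact hlog
    calc ((J : ℝ) + 2) ^ (2 * J) ≤ (Real.exp (e / K₀)) ^ (2 * J) :=
          pow_le_pow_left₀ (by positivity) e2 _
      _ = Real.exp ((2 * J : ℕ) * (e / K₀)) := by rw [← Real.exp_nat_mul]
      _ ≤ Real.exp (e ^ 2 / 10) := by
          apply Real.exp_le_exp.2
          push_cast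
          have e3 : e / K₀ ≤ e / 1000 := div_le_div_of_nonneg_left he0.le (by norm_num) hK
          have e4 : 2 * (J:ℝ) ≤ 61 * e := by linarith
          calc 2 * (J:ℝ) * (e / K₀) ≤ 61 * e * (e / 1000) :=
                mul_le_mul e4 e3 (by positivity) (by positivity)
            _ ≤ e ^ 2 / 10 := by nlinarith
  have h2 : Real.exp (24 * e) + 1 ≤ 2 * Real.exp (24 * e) := by
    have := Real.one_le_exp (show 0 ≤ 24 * e by positivity)
    linarith
  have h3 : 1 + 3 * Real.exp (11 / 10 * e) * ((J : ℝ) + 2) ^ (2 * J) *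
      (Real.exp (24 * e) + 1) ≤ Real.exp (e ^ 2 / 5) := by
    have e1 : 3 * Real.exp (11 / 10 * e) * ((J : ℝ) + 2) ^ (2 * J) * (Real.exp (24 * e) + 1) ≤
        3 * Real.exp (11 / 10 * e) * Real.exp (e ^ 2 / 10) * (2 * Real.exp (24 * e)) := by
      apply mul_le_mul _ h2 (by positivity) (by positivity)
      exact mul_le_mul_of_nonneg_left h1 (by positivity)
    have e2 : 3 * Real.exp (11 / 10 * e) * Real.exp (e ^ 2 / 10) * (2 * Real.exp (24 * e)) =
        6 * Real.exp (11 / 10 * e + e ^ 2 / 10 + 24 * e) := by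
      rw [Real.exp_add, Real.exp_add]; ring
    have e3 : 1 ≤ Real.exp (11 / 10 * e + e ^ 2 / 10 + 24 * e) := Real.one_le_exp (by positivity)
    have e4 : 7 * Real.exp (11 / 10 * e + e ^ 2 / 10 + 24 * e) ≤ Real.exp (e ^ 2 / 5) := by
      have e5 : (7:ℝ) ≤ Real.exp 6 := by
        have := Real.add_one_le_exp (6:ℝ)
        linarith
      calc 7 * Real.exp (11 / 10 * e + e ^ 2 / 10 + 24 * e) ≤
            Real.exp 6 * Real.exp (11 / 10 * e + e ^ 2 / 10 + 24 * e) :=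
            mul_le_mul_of_nonneg_right e5 (Real.exp_pos _).le
        _ = Real.exp (6 + (11 / 10 * e + e ^ 2 / 10 + 24 * e)) := by rw [← Real.exp_add]
        _ ≤ _ := by
            apply Real.exp_le_exp.2
            nlinarith
    linarith
  have hE := Real.exp_pos e
  have hE1 : 1000 ≤ Real.exp e := by
    have := Real.add_one_le_exp e
    linarith
  have h4 : (1 + 3 * Real.exp (11 / 10 * e) * ((J : ℝ) + 2) ^ (2 * J) *
      (Real.exp (24 * e) + 1)) ^ r ≤ Real.exp (e ^ 2 / 5 * Real.exp e) := by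
    calc (1 + 3 * Real.exp (11 / 10 * e) * ((J : ℝ) + 2) ^ (2 * J) *
        (Real.exp (24 * e) + 1)) ^ r ≤ (Real.exp (e ^ 2 / 5)) ^ r :=
          pow_le_pow_left₀ (by positivity) h3 r
      _ = Real.exp (r * (e ^ 2 / 5)) := by rw [← Real.exp_nat_mul]
      _ ≤ _ := by
          apply Real.exp_le_exp.2
          rw [mul_comm]
          exact mul_le_mul_of_nonneg_left hr (by positivity)
  calc (3 * (1 + 3 * Real.exp (11 / 10 * e) * ((J : ℝ) + 2) ^ (2 * J) *
      (Real.exp (24 * e) + 1)) ^ r) ^ 2 ≤ (3 * Real.exp (e ^ 2 / 5 * Real.exp e)) ^ 2 := by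
        apply pow_le_pow_left₀ (by positivity)
        linarith
    _ ≤ (Real.exp 2 * Real.exp (e ^ 2 / 5 * Real.exp e)) ^ 2 := by
        apply pow_le_pow_left₀ (by positivity)
        apply mul_le_mul_of_nonneg_right _ (Real.exp_pos _).le
        have := Real.add_one_le_exp (2:ℝ)
        linarith
    _ = Real.exp (4 + 2 / 5 * (e ^ 2 * Real.exp e)) := by
        rw [← Real.exp_add, ← Real.exp_nat_mul]
        congr 1
        push_cast
        ring
    _ ≤ _ := by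
        apply Real.exp_le_exp.2
        have : 1000 ≤ e ^ 2 * Real.exp e := by nlinarith
        linarith

end Pool.Agent.T2h81.RF
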