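import Pool.Agent.Y831.RC.Core1
import Pool.Agent.Y831.RC.ALog
import Pool.Agent.Y831.RC.WWb
import Pool.Agent.H256R2.SC.V1
import Pool.Agent.T2h81.RF.CI

set_option autoImplicit false
set_option linter.unusedSectionVars false

/-! # The covering sieve for intervals: reduction to numerical conditions -/

namespace Pool.Agent.T2h81.RF

open Pool.Agent.Y831.RC

open Finset Filter Pool.Agent.H256R2.SC

open scoped Classical

/-- covering property at `X`: primes in `(w, X^δ]`, at most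
`(1/2 - ε) log X loglog X ∏_{p ≤ w} (1 - 1/p)` classes -/
def CovAt (w X δ ε : ℝ) : Prop :=
  ∀ (κ : Type) [Fintype κ] [DecidableEq κ],
    (Fintype.card κ : ℝ) ≤ (1 / 2 - ε) * (Real.log X * Real.log (Real.log X) * WW w) →
    ∀ (res : ℕ → κ → ℤ),
    (∀ p : ℕ, p.Prime → w < p → (p : ℝ) ≤ X ^ δ →
      ∀ k l, k ≠ l → ¬ ((p : ℤ) ∣ res p k - res p l)) →
    ∀ A B : ℤ, X ^ (1 - δ) ≤ (B : ℝ) - A →
    ∃ x : ℤ, A < x ∧ x ≤ B ∧ ∀ k : κ, ∃ p : ℕ, p.Prime ∧ w < p ∧ (p : ℝ) ≤ X ^ δ ∧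
      (p : ℤ) ∣ x - res p k

theorem PS_mem {y₁ z : ℝ} (hz : 0 ≤ z) {p : ℕ} (hp : p ∈ PS y₁ z ∅) :
    p.Prime ∧ y₁ < (p:ℝ) ∧ (p:ℝ) ≤ z := by
  unfold PS at hp
  rw [Finset.mem_filter, Finset.mem_Icc] at hp
  refine ⟨hp.2.1, hp.2.2.1, ?_⟩
  calc (p:ℝ) ≤ (⌊z⌋₊ : ℝ) := by exact_mod_cast hp.1.2
    _ ≤ z := Nat.floor_le hz

/-- lower bound for the sum with the weight `1 / log` -/
theorem alog_PS (y₁ z v₀ : ℝ) (hy : 2 ≤ y₁) (hz : 1 < z) (hv₀ : 0 < v₀) (hv₀z : v₀ ≤ Real.log z) :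
    WW y₁ / (1 + 2 / y₁) * Real.log (Real.log z / v₀) - 1 / v₀ ≤
      ∑ s : Finset (Fin (PS y₁ z ∅).card) with s.Nonempty ∧
        ∏ i ∈ s, ((emb (PS y₁ z ∅) i : ℕ) : ℝ) ≤ z,
      (∏ i ∈ s, 1 / ((emb (PS y₁ z ∅) i : ℕ) : ℝ)) /
        Real.log (∏ i ∈ s, ((emb (PS y₁ z ∅) i : ℕ) : ℝ)) := by
  set PP : Finset ℕ := PS y₁ z ∅ with hPP
  have hzpos : 0 < z := by linarith
  set P : Fin PP.card → ℝ := fun i => ((emb PP i : ℕ) : ℝ) with hP
  have hP1 : ∀ i, 1 < P i := fun i => by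
    have := (PS_mem hzpos.le (emb_mem PP i)).2.1
    have h2 : (1:ℝ) < y₁ := by linarith
    exact h2.trans this
  have hP0 : ∀ i, 0 < P i := fun i => zero_lt_one.trans (hP1 i)
  have hy2 : 0 < 1 + 2 / y₁ := by positivity
  refine alog_lower (univ.filter (fun s : Finset (Fin PP.card) => s.Nonempty ∧ ∏ i ∈ s, P i ≤ z))
    (fun s => ∏ i ∈ s, 1 / ((emb PP i : ℕ) : ℝ)) (fun s => Real.log (∏ i ∈ s, P i))
    (fun s _ => Finset.prod_nonneg fun i _ => by positivity) ?_ _ v₀ (Real.log z) hv₀ hv₀z ?_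
  · intro s hs
    apply Real.log_pos
    obtain ⟨i, hi⟩ := (Finset.mem_filter.1 hs).2.1
    rw [← Finset.mul_prod_erase s P hi]
    have h1 : (1 : ℝ) ≤ ∏ j ∈ s.erase i, P j := by
      calc (1 : ℝ) = ∏ _j ∈ s.erase i, (1 : ℝ) := by simp
        _ ≤ _ := Finset.prod_le_prod (fun _ _ => zero_le_one) (fun j _ => (hP1 j).le)
    have h2 := hP1 i
    calc (1:ℝ) < P i := h2
      _ = P i * 1 := (mul_one _).symm
      _ ≤ P i * ∏ j ∈ s.erase i, P j := mul_le_mul_of_nonneg_left h1 (hP0 i).le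
  · intro v hv1 hv2
    have h1 := A_sharp y₁ z (Real.exp v) hy (Real.one_le_exp (by linarith))
      (by rw [← Real.exp_log hzpos]; exact Real.exp_le_exp.2 hv2)
    rw [Real.log_exp, ← hPP, ← Asum_enum PP (Real.exp v)] at h1
    have h2 : WW y₁ / (1 + 2 / y₁) * v ≤ 1 + Asum P (fun i => 1 / ((emb PP i : ℕ) : ℝ)) (Real.exp v) := by
      rw [div_mul_eq_mul_div, div_le_iff₀ hy2, mul_comm _ (1 + 2 / y₁)]
      exact h1
    have h3 : Asum P (fun i => 1 / ((emb PP i : ℕ) : ℝ)) (Real.exp v) =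
        ∑ s ∈ (univ.filter (fun s : Finset (Fin PP.card) => s.Nonempty ∧ ∏ i ∈ s, P i ≤ z)) with
        Real.log (∏ i ∈ s, P i) ≤ v, ∏ i ∈ s, 1 / ((emb PP i : ℕ) : ℝ) := by
      unfold Asum
      rw [Finset.filter_filter]
      refine Finset.sum_congr ?_ fun _ _ => rfl
      ext s
      have hpos : 0 < ∏ i ∈ s, P i := Finset.prod_pos fun i _ => hP0 i
      simp only [Finset.mem_filter, Finset.mem_univ, true_and]
      rw [Real.log_le_iff_le_exp hpos, and_assoc]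
      constructor
      · rintro ⟨h1, h2⟩
        refine ⟨h1, h2.trans ?_, h2⟩
        rw [← Real.exp_log hzpos]
        exact Real.exp_le_exp.2 hv2
      · rintro ⟨h1, _, h2⟩
        exact ⟨h1, h2⟩
    rw [← h3]
    linarith

theorem profile_PS (y₁ z v₀ A₀ : ℝ) (hy : 2 ≤ y₁) (hz : 1 < z) (hv₀ : 0 < v₀)
    (hv₀z : v₀ ≤ Real.log z) (hA₀ : 0 < A₀)
    (hA : A₀ ≤ WW y₁ / (1 + 2 / y₁) * Real.log (Real.log z / v₀) - 1 / v₀)
    (hyA : 1 ≤ A₀ * Real.log y₁) :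
    ∃ h, Hyp (fun i => ((emb (PS y₁ z ∅) i : ℕ) : ℝ)) (fun i => 1 / ((emb (PS y₁ z ∅) i : ℕ) : ℝ))
      h z (1 / A₀) := by
  have hzpos : 0 < z := by linarith
  have hPy : ∀ i, y₁ < ((emb (PS y₁ z ∅) i : ℕ) : ℝ) := fun i =>
    (PS_mem hzpos.le (emb_mem (PS y₁ z ∅) i)).2.1
  apply exists_h_opt
  · intro i
    have := hPy i
    linarith
  · intro i
    have := hPy i
    have : (0:ℝ) < ((emb (PS y₁ z ∅) i : ℕ) : ℝ) := by linarith
    positivity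
  · exact hz
  · exact hA₀
  · exact hA.trans (alog_PS y₁ z v₀ hy hz hv₀ hv₀z)
  · intro i
    refine hyA.trans (mul_le_mul_of_nonneg_left ?_ hA₀.le)
    exact Real.log_le_log (by linarith) (hPy i).le

theorem sum_emb (PP : Finset ℕ) (f : ℕ → ℝ) : ∑ i, f (emb PP i) = ∑ p ∈ PP, f p := by
  have : PP = univ.map (emb PP) := by
    ext p
    rw [Finset.mem_map]
    constructor
    · intro hp
      obtain ⟨i, hi⟩ := emb_surj PP hp
      exact ⟨i, Finset.mem_univ _, hi⟩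
    · rintro ⟨i, _, rfl⟩
      exact emb_mem PP i
  conv_rhs => rw [this]
  rw [Finset.sum_map]

theorem sum_PS : ∃ C : ℝ, 0 ≤ C ∧ ∀ y₁ z : ℝ, Real.exp 2 ≤ z →
    ∑ i, 1 / ((emb (PS y₁ z ∅) i : ℕ) : ℝ) ≤ Real.log (Real.log z) + C := by
  obtain ⟨CM₀, hM₀⟩ := Pool.Agent.Helper256.KM.mertens_inv
  refine ⟨max CM₀ 0, le_max_right _ _, fun y₁ z hz => ?_⟩
  have hzpos : 0 < z := (Real.exp_pos _).trans_le hz
  have hz3 : 3 ≤ ⌊z⌋₊ := by
    apply Nat.le_floor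
    push_cast
    have e5 : (3:ℝ) ≤ Real.exp 2 := by
      have := Real.add_one_le_exp (2:ℝ); linarith
    linarith
  have h2 := (abs_le.mp (hM₀ ⌊z⌋₊ hz3)).2
  have h3 : ∑ p ∈ PS y₁ z ∅, 1 / (p:ℝ) ≤ ∑ p ∈ (Finset.Icc 1 ⌊z⌋₊).filter Nat.Prime, (1 : ℝ) / p := by
    apply Finset.sum_le_sum_of_subset_of_nonneg
    · intro p hp
      unfold PS at hp
      rw [Finset.mem_filter] at hp ⊢
      exact ⟨hp.1, hp.2.1⟩
    · intro p _ _
      positivity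
  have h4 : Real.log (Real.log (⌊z⌋₊ : ℝ)) ≤ Real.log (Real.log z) := by
    have e1 : (3:ℝ) ≤ (⌊z⌋₊ : ℝ) := by exact_mod_cast hz3
    exact Real.log_le_log (Real.log_pos (by linarith))
      (Real.log_le_log (by linarith) (Nat.floor_le hzpos.le))
  rw [sum_emb (PS y₁ z ∅) (fun p => 1 / (p:ℝ))]
  have := le_max_left CM₀ 0
  linarith

theorem card_PS (y₁ z : ℝ) (hz : 1 ≤ z) : ((PS y₁ z ∅).card : ℝ) + 1 ≤ z := by
  have h1 : PS y₁ z ∅ ⊆ Finset.Icc 2 ⌊z⌋₊ := by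
    intro p hp
    unfold PS at hp
    rw [Finset.mem_filter, Finset.mem_Icc] at hp
    rw [Finset.mem_Icc]
    exact ⟨hp.2.1.two_le, hp.1.2⟩
  have h2 := Finset.card_le_card h1
  rw [Nat.card_Icc] at h2
  have h3 : 1 ≤ ⌊z⌋₊ := Nat.le_floor (by push_cast; exact hz)
  have h4 : (PS y₁ z ∅).card + 1 ≤ ⌊z⌋₊ := by omega
  calc ((PS y₁ z ∅).card : ℝ) + 1 ≤ (⌊z⌋₊ : ℝ) := by exact_mod_cast h4
    _ ≤ z := Nat.floor_le (by linarith)

/-- the covering theorem for intervals, under numerical conditions -/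
theorem cover_of (y₁ z K Q δ η s CB G₁ : ℝ) (J : ℕ) (hJ : Even J)
    (hy9 : 9 ≤ y₁) (hz1 : 1 < z) (hQ : 1 ≤ Q) (hη0 : 0 < η) (hη1 : η ≤ 1) (hs : 1 ≤ s)
    (hG : ∑ i, 1 / ((emb (PS y₁ z ∅) i : ℕ) : ℝ) ≤ G₁)
    (hH : ∃ h, Hyp (fun i => ((emb (PS y₁ z ∅) i : ℕ) : ℝ))
      (fun i => 1 / ((emb (PS y₁ z ∅) i : ℕ) : ℝ)) h z K)
    (hδ : 2 * (Real.log Q / Real.log y₁) / y₁ ≤ δ)
    (κ : Type) [Fintype κ] [DecidableEq κ] (u : ℝ) (hu : (Fintype.card κ : ℝ) = u)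
    (huy : u ≤ y₁) (huδ : u * δ ≤ 1 / 4)
    (hCB : Q ^ s * Real.exp (2 * u * (y₁ ^ (1 - s) * G₁)) ≤ CB)
    (htail : (u + 1) * (δ ^ 2 + Real.exp (η * ((1 + η) * u * K / Real.log z -
      Real.log (Q / z) / Real.log z))) ≤ 1 / 8)
    (hmom : u * (1 / 3) ^ J * Real.exp (20 * G₁) ≤ 1 / 8)
    (res : ℕ → κ → ℤ)
    (hres : ∀ p : ℕ, p.Prime → y₁ < p → (p : ℝ) ≤ z → ∀ k l, k ≠ l →
      ¬ ((p : ℤ) ∣ res p k - res p l))
    (A B : ℤ) (hAB : CB ^ 2 * (1 + u * z ^ J) < ((B : ℝ) - A) / 8) :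
    ∃ x : ℤ, A < x ∧ x ≤ B ∧ ∀ k : κ, ∃ p : ℕ, p.Prime ∧ y₁ < p ∧ (p : ℝ) ≤ z ∧
      (p : ℤ) ∣ x - res p k := by
  obtain ⟨h, H⟩ := hH
  have hzpos : 0 < z := zero_lt_one.trans hz1
  have hu0 : 0 ≤ u := by rw [← hu]; positivity
  have hy0 : 0 < y₁ := by linarith
  have hlogy : 0 < Real.log y₁ := Real.log_pos (by linarith)
  set PP : Finset ℕ := PS y₁ z ∅ with hPP
  have hPPmem : ∀ p ∈ PP, p.Prime ∧ y₁ < (p:ℝ) ∧ (p:ℝ) ≤ z := fun p hp => PS_mem hzpos.le hp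
  have hPprime : ∀ p ∈ PP, p.Prime := fun p hp => (hPPmem p hp).1
  have hinj : ∀ p ∈ PP, ∀ k l : κ, k ≠ l → ¬ ((p : ℤ) ∣ res p k - res p l) := by
    intro p hp
    obtain ⟨h1, h2, h4⟩ := hPPmem p hp
    exact hres p h1 h2 h4
  have hPy : ∀ i, y₁ < ((emb PP i : ℕ) : ℝ) := fun i => (hPPmem _ (emb_mem PP i)).2.1
  have hP0 : ∀ i, 0 < ((emb PP i : ℕ) : ℝ) := fun i => hy0.trans (hPy i)
  have hgy : ∀ i, 1 / ((emb PP i : ℕ) : ℝ) ≤ 1 / y₁ := fun i =>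
    one_div_le_one_div_of_le hy0 (hPy i).le
  have h9 : (1:ℝ) / y₁ ≤ 1 / 9 := one_div_le_one_div_of_le (by norm_num) hy9
  have hG0 : 0 ≤ ∑ i, 1 / ((emb PP i : ℕ) : ℝ) := Finset.sum_nonneg fun i _ => by positivity
  have hG₁ : 0 ≤ G₁ := hG0.trans hG
  -- sizes of supports
  have hsupp : ∀ D : Col PP.card κ, qq (fun i => ((emb PP i : ℕ) : ℝ)) D ≤ Q →
      2 * ∑ i with D i ≠ none, 1 / ((emb PP i : ℕ) : ℝ) ≤ δ := by
    intro D hD
    have h1 : Real.exp (((supp D).card : ℝ) * Real.log y₁) ≤ qq (fun i => ((emb PP i : ℕ) : ℝ)) D := by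
      unfold qq
      rw [prod_nu1]
      have : Real.exp (((supp D).card : ℝ) * Real.log y₁) = ∏ i ∈ supp D, Real.exp (Real.log y₁) := by
        rw [Finset.prod_const, ← Real.exp_nat_mul]
      rw [this]
      apply Finset.prod_le_prod
      · intro i _; exact (Real.exp_pos _).le
      · intro i _
        rw [Real.exp_log hy0]
        exact (hPy i).le
    have h2 := h1.trans hD
    have h3 : ((supp D).card : ℝ) * Real.log y₁ ≤ Real.log Q := by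
      rw [Real.le_log_iff_exp_le (by linarith)]
      exact h2
    have h4 : ((supp D).card : ℝ) ≤ Real.log Q / Real.log y₁ := by
      rw [le_div_iff₀ hlogy]
      exact h3
    have h5 : ∑ i with D i ≠ none, 1 / ((emb PP i : ℕ) : ℝ) ≤ (supp D).card * (1 / y₁) := by
      have : ∑ i ∈ supp D, 1 / ((emb PP i : ℕ) : ℝ) ≤ ∑ i ∈ supp D, (1 / y₁) :=
        Finset.sum_le_sum (fun i _ => hgy i)
      rw [Finset.sum_const, nsmul_eq_mul] at this
      exact this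
    refine le_trans ?_ hδ
    calc 2 * ∑ i with D i ≠ none, 1 / ((emb PP i : ℕ) : ℝ) ≤ 2 * ((supp D).card * (1 / y₁)) :=
          mul_le_mul_of_nonneg_left h5 (by norm_num)
      _ ≤ 2 * (Real.log Q / Real.log y₁ * (1 / y₁)) := by
          apply mul_le_mul_of_nonneg_left _ (by norm_num)
          exact mul_le_mul_of_nonneg_right h4 (by positivity)
      _ = 2 * (Real.log Q / Real.log y₁) / y₁ := by ring
  -- the count
  have hz0 : (1:ℝ) ≤ z ^ J := one_le_pow₀ hz1.le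
  have hNpos : 0 < (B:ℝ) - A := by
    have : 0 ≤ CB ^ 2 * (1 + u * z ^ J) := by positivity
    linarith
  have hABle : A ≤ B := by
    have h2 : (A:ℝ) ≤ B := by linarith
    exact_mod_cast h2
  have hevent : ∀ D : Col PP.card κ, qq (fun i => ((emb PP i : ℕ) : ℝ)) D ≤ Q ^ 2 * z ^ J →
      |((((Ioc A B).filter (fun a => ∀ i, D i ≠ none → colr PP res a i = D i)).card : ℕ) : ℝ) -
        ((B:ℝ) - A) * nu (fun i => 1 / ((emb PP i : ℕ) : ℝ)) D| ≤ 1 := by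
    intro D _
    obtain ⟨r, hr⟩ := event_iff hPprime hinj D
    have h1 : ((Ioc A B).filter (fun a => ∀ i, D i ≠ none → colr PP res a i = D i)) =
        (Ioc A B).filter (fun a => ((qn PP D : ℕ) : ℤ) ∣ a - r) := by
      apply Finset.filter_congr
      intro a _
      exact hr a
    rw [h1, nu_eq PP D, mul_one_div]
    exact LG.count_Ioc A B hABle (qn PP D) (Nat.pos_of_ne_zero (qn_squarefree hPprime D).ne_zero) r
  have hn1 : (PP.card:ℝ) + 1 ≤ z := card_PS y₁ z hz1.le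
  have hn0 : (0:ℝ) ≤ (PP.card:ℝ) + 1 := add_nonneg (Nat.cast_nonneg _) zero_le_one
  have c1 : ∀ i, 1 / ((emb PP i : ℕ) : ℝ) ≤ 1 := fun i => (hgy i).trans (by linarith)
  have c2 : ∀ i, 3 * 3 * (1 / ((emb PP i : ℕ) : ℝ)) ≤ 1 := fun i => by
    have := hgy i
    linarith
  have c3 : ∀ i, (Fintype.card κ : ℝ) * (1 / ((emb PP i : ℕ) : ℝ)) ≤ 1 := fun i => by
    rw [hu, mul_one_div, div_le_one (hP0 i)]
    exact huy.trans (hPy i).le
  have c4 : Q ^ s * Real.exp (2 * (Fintype.card κ : ℝ) * ∑ i, 1 / ((emb PP i : ℕ) : ℝ) ^ s) ≤ CB := by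
    refine le_trans ?_ hCB
    apply mul_le_mul_of_nonneg_left _ (Real.rpow_nonneg (by linarith) _)
    apply Real.exp_le_exp.2
    rw [hu]
    apply mul_le_mul_of_nonneg_left _ (by positivity)
    calc ∑ i, 1 / ((emb PP i : ℕ) : ℝ) ^ s ≤ ∑ i, y₁ ^ (1 - s) * (1 / ((emb PP i : ℕ) : ℝ)) := by
          apply Finset.sum_le_sum
          intro i _
          have e1 : 1 / ((emb PP i : ℕ) : ℝ) ^ s = ((emb PP i : ℕ) : ℝ) ^ (1 - s) *
              (1 / ((emb PP i : ℕ) : ℝ)) := by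
            rw [Real.rpow_sub (hP0 i), Real.rpow_one]
            have := (hP0 i).ne'
            field_simp
          rw [e1]
          apply mul_le_mul_of_nonneg_right _ (by positivity)
          exact Real.rpow_le_rpow_of_nonpos hy0 (hPy i).le (by linarith)
      _ = y₁ ^ (1 - s) * ∑ i, 1 / ((emb PP i : ℕ) : ℝ) := by rw [Finset.mul_sum]
      _ ≤ y₁ ^ (1 - s) * G₁ := mul_le_mul_of_nonneg_left hG (Real.rpow_nonneg hy0.le _)
  have c5 : (Fintype.card κ : ℝ) * (1 / 3) ^ J *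
      Real.exp ((2 + 6 * 3) * ∑ i, 1 / ((emb PP i : ℕ) : ℝ)) ≤ 1 / 8 := by
    refine le_trans ?_ hmom
    rw [hu]
    apply mul_le_mul_of_nonneg_left _ (by positivity)
    apply Real.exp_le_exp.2
    linarith
  have c6 : (1:ℝ) * (CB ^ 2 * (1 + Fintype.card κ * ((PP.card:ℝ) + 1) ^ J)) < ((B:ℝ) - A) / 8 := by
    refine lt_of_le_of_lt ?_ hAB
    rw [hu, one_mul]
    apply mul_le_mul_of_nonneg_left _ (sq_nonneg _)
    have := pow_le_pow_left₀ hn0 hn1 J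
    have := mul_le_mul_of_nonneg_left this hu0
    linarith
  have c7 : (Fintype.card κ + 1 : ℝ) * (δ ^ 2 + Real.exp (η * ((1 + η) * (Fintype.card κ : ℝ) * K /
      Real.log z - Real.log (Q / z) / Real.log z))) ≤ 1 / 8 := by rw [hu]; exact htail
  have c8 : (Fintype.card κ : ℝ) * δ ≤ 1 / 4 := by rw [hu]; exact huδ
  obtain ⟨a, ha, hcov⟩ := core_sharp (κ := κ) (Ioc A B) (colr PP res) H Q δ 3 ((B:ℝ) - A) 1
    η s CB J hJ (by norm_num) hNpos zero_le_one hQ hη0 hη1 (by linarith)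
    (fun i => (hPPmem _ (emb_mem PP i)).2.2) c1 c2 c3 hsupp c8 c4 c7 c5 hevent c6
  rw [Finset.mem_Ioc] at ha
  refine ⟨a, ha.1, ha.2, fun k => ?_⟩
  obtain ⟨i, hi⟩ := hcov k
  have h1 := (colr_eq hinj a i k).mp hi
  have h2 := hPPmem _ (emb_mem PP i)
  exact ⟨emb PP i, h2.1, h2.2.1, h2.2.2, h1⟩

end Pool.Agent.T2h81.RF
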